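import Pool.Agent.Lib.MP_d0f9e0_co.AN38.Lim

/-!
# The level `c` beta integral: evaluation
-/

set_option autoImplicit false

open MeasureTheory Filter Topology Set

namespace Pool.Agent.MP_d0f9e0_co.AN38

variable {c : ℕ} [NeZero c] {a d : ℤ} {η : ℝ} {E : ℂ → ZMod c → ℂ}

theorem LevE.pinch_J (h : LevE c a d η E) {ρ u : ℝ} (hρ' : ρ < (1 + η) / c) (hu : 0 < u)
    (hu' : u < ρ) (μ : ZMod c) :
    Tendsto (fun ε : ℝ => (ε : ℂ) * JP a d η E ρ μ (-(1 / c) + ε) a u) (𝓝[>] 0)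
      (𝓝 ((η / (2 * Real.pi) : ℝ) : ℂ)) := by
  have hc := c_pos (c := c)
  have e0 : (1 + η) / (c : ℝ) = 1 / c + η / c := by ring
  have h1 : ∀ m : ZMod c, Tendsto (fun ε : ℝ => (ε : ℂ) * ∫ t : ℝ,
      KK a d η E (ρ - η / c) (μ + 1) (-(1 / c) + ε) a (u + t * Complex.I) m) (𝓝[>] 0)
      (𝓝 ((η / (2 * Real.pi * c) : ℝ) : ℂ)) := fun m =>
    h.pinch_one (by linarith) hu (by linarith) (μ + 1) m
  have h2 := tendsto_finsetSum (Finset.univ : Finset (ZMod c)) (fun m _ => h1 m)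
  rw [Finset.sum_const, Finset.card_univ, ZMod.card, nsmul_eq_mul] at h2
  have e1 : (c : ℂ) * ((η / (2 * Real.pi * c) : ℝ) : ℂ) = ((η / (2 * Real.pi) : ℝ) : ℂ) := by
    have hcC : (c : ℂ) ≠ 0 := by exact_mod_cast NeZero.ne c
    have hpiC : (Real.pi : ℂ) ≠ 0 := by exact_mod_cast Real.pi_ne_zero
    push_cast
    field_simp
  rw [e1] at h2
  refine h2.congr fun ε => ?_
  unfold JP JJ
  rw [Finset.mul_sum]

theorem LevE.pinch_R (h : LevE c a d η E) {ρ : ℝ} (hρ : 0 < ρ) (hρ' : ρ < (1 + η) / c)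
    (μ : ZMod c) :
    Tendsto (fun ε : ℝ => (ε : ℂ) * RRz a d η E ρ μ (-(1 / c) + ε) a) (𝓝[>] 0)
      (𝓝 (Complex.I * ((η / (2 * Real.pi) : ℝ) : ℂ))) := by
  have hc := c_pos (c := c)
  have hη1 := h.one_lt
  have hη : 0 < η := by linarith
  have hηC : (η : ℂ) ≠ 0 := by exact_mod_cast hη.ne'
  have hpiC : (Real.pi : ℂ) ≠ 0 := by exact_mod_cast Real.pi_ne_zero
  have e0 : (1 + η) / (c : ℝ) = 1 / c + η / c := by ring
  have h0 : 0 < 1 / (c : ℝ) := by positivity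
  have h1c : 1 / (c : ℝ) < η / c := by gcongr
  -- the pole
  have hg : Tendsto (fun ε : ℝ => (ε : ℂ) / (1 - ee (ε / η))) (𝓝[>] 0)
      (𝓝 (Complex.I * ((η / (2 * Real.pi) : ℝ) : ℂ))) := by
    have d1 : HasDerivAt (fun ε : ℝ => 1 - ee ((ε : ℂ) / η)) (-(2 * Real.pi * Complex.I / η)) 0 := by
      have a1 : HasDerivAt (fun ε : ℝ => (2 * Real.pi * Complex.I * ((ε : ℂ) / η) : ℂ))
          (2 * Real.pi * Complex.I * (1 / η)) 0 := by
        have a2 : HasDerivAt (fun t : ℝ => (t : ℂ)) 1 (0 : ℝ) := Complex.ofRealCLM.hasDerivAt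
        exact (a2.div_const _).const_mul _
      have a3 := (a1.cexp).const_sub 1
      simp only [Complex.ofReal_zero, zero_div, mul_zero, Complex.exp_zero, one_mul] at a3
      refine a3.congr_deriv ?_
      ring
    have d2 := d1.tendsto_slope_zero_right
    simp only [zero_add, Complex.ofReal_zero, zero_div, ee_zero, sub_self, sub_zero] at d2
    have d3 := d2.inv₀ (neg_ne_zero.2 (div_ne_zero (mul_ne_zero (mul_ne_zero two_ne_zero hpiC)
      Complex.I_ne_zero) hηC))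
    have e1 : (-(2 * (Real.pi : ℂ) * Complex.I / η))⁻¹ =
        Complex.I * ((η / (2 * Real.pi) : ℝ) : ℂ) := by
      have hI : Complex.I ≠ 0 := Complex.I_ne_zero
      have hI2 : Complex.I ^ 2 = -1 := Complex.I_sq
      rw [inv_eq_iff_eq_inv]
      refine eq_inv_of_mul_eq_one_left ?_
      push_cast
      field_simp
      rw [hI2]
      ring
    rw [e1] at d3
    refine d3.congr fun ε => ?_
    rw [Complex.real_smul, mul_inv, Complex.ofReal_inv, inv_inv]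
    exact (div_eq_mul_inv _ _).symm
  -- continuity
  have c1 : Tendsto (fun ε : ℝ => ee (c * ρ * ε / η)) (𝓝[>] 0) (𝓝 1) := by
    have hcont : Continuous (fun ε : ℝ => ee (c * ρ * ε / η)) :=
      differentiable_ee.continuous.comp (by fun_prop)
    have := hcont.tendsto 0
    simp only [Complex.ofReal_zero, mul_zero, zero_div, ee_zero] at this
    exact this.mono_left nhdsWithin_le_nhds
  have c2 : Tendsto (fun ε : ℝ => E (ε : ℂ) 0) (𝓝[>] 0) (𝓝 (E 0 0)) := by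
    have h2 : ContinuousAt (fun z => E z 0) ((0 : ℝ) : ℂ) :=
      (h.diffAt 0 (by simpa using h0) (by rw [Complex.ofReal_re]; linarith)).continuousAt
    have h3 : ContinuousAt (fun ε : ℝ => (ε : ℂ)) 0 := Complex.continuous_ofReal.continuousAt
    have h4 := ContinuousAt.comp (f := fun ε : ℝ => (ε : ℂ)) (x := (0 : ℝ)) h2 h3
    have h5 : Tendsto ((fun z => E z 0) ∘ fun ε : ℝ => (ε : ℂ)) (𝓝 0) (𝓝 (E ((0 : ℝ) : ℂ) 0)) := h4
    rw [Complex.ofReal_zero] at h5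
    exact h5.mono_left nhdsWithin_le_nhds
  have r1 : ((ρ : ℂ) - (1 : ℂ) / c).re = ρ - 1 / c := by
    simp only [Complex.sub_re, re_one_div, Complex.ofReal_re]
  have c3 : Tendsto (fun ε : ℝ => E ((ρ : ℂ) - 1 / c + (ε : ℂ)) (a + μ)) (𝓝[>] 0)
      (𝓝 (E ((ρ : ℂ) - 1 / c) (a + μ))) := by
    have h2 : ContinuousAt (fun z => E z (a + μ)) ((ρ : ℂ) - 1 / c + ((0 : ℝ) : ℂ)) :=
      (h.diffAt (a + μ) (by rw [Complex.add_re, r1, Complex.ofReal_re]; linarith)
        (by rw [Complex.add_re, r1, Complex.ofReal_re]; linarith)).continuousAt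
    have h3 : ContinuousAt (fun ε : ℝ => (ρ : ℂ) - 1 / c + (ε : ℂ)) 0 := by fun_prop
    have h4 := ContinuousAt.comp (f := fun ε : ℝ => (ρ : ℂ) - 1 / c + (ε : ℂ)) (x := (0 : ℝ)) h2 h3
    have h5 : Tendsto ((fun z => E z (a + μ)) ∘ fun ε : ℝ => (ρ : ℂ) - 1 / c + (ε : ℂ)) (𝓝 0)
        (𝓝 (E ((ρ : ℂ) - 1 / c + ((0 : ℝ) : ℂ)) (a + μ))) := h4
    rw [Complex.ofReal_zero, add_zero] at h5
    exact h5.mono_left nhdsWithin_le_nhds
  have n1 : E ((ρ : ℂ) - 1 / c) (a + μ) ≠ 0 := h.ne _ _ (by rw [r1]; linarith)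
    (by rw [r1]; linarith)
  have n4 : E 0 0 ≠ 0 := by
    refine h.ne _ _ ?_ ?_
    · simpa using h0
    · have : 0 < η / (c : ℝ) := by positivity
      simpa using this
  have key := ((c1.mul (tendsto_const_nhds (x := E ((ρ : ℂ) - 1 / c) (a + μ)))).mul
    (c2.mul hg)).div ((tendsto_const_nhds (x := E 0 0)).mul c3) (mul_ne_zero n4 n1)
  have ev : 1 * E ((ρ : ℂ) - 1 / c) (a + μ) * (E 0 0 * (Complex.I *
      ((η / (2 * Real.pi) : ℝ) : ℂ))) / (E 0 0 * E ((ρ : ℂ) - 1 / c) (a + μ)) =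
      Complex.I * ((η / (2 * Real.pi) : ℝ) : ℂ) := by
    field_simp
  rw [ev] at key
  refine key.congr' ?_
  have hev : ∀ᶠ ε : ℝ in 𝓝[>] 0, ε < η / c :=
    mem_nhdsWithin_of_mem_nhds (gt_mem_nhds (by positivity))
  filter_upwards [self_mem_nhdsWithin, hev] with ε hε hε2
  have hε0 : 0 < ε := hε
  have r2 : (-(1 / (c : ℂ)) + (ε : ℂ)).re = -(1 / c) + ε := by
    rw [show -(1 / (c : ℂ)) + (ε : ℂ) = ((-(1 / c) + ε : ℝ) : ℂ) by push_cast; ring,
      Complex.ofReal_re]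
  have k1 := h.s1 (-(1 / c) + ε) (a : ZMod c) (by rw [r2]; linarith) (by rw [r2]; linarith)
  rw [show -(1 / (c : ℂ)) + (ε : ℂ) + 1 / c = ε by ring, sub_self,
    show xt η (ε : ℂ) (0 : ZMod c) = ee (ε / η) by unfold xt; rw [chi_zero, mul_one]] at k1
  have n2 : E (ε : ℂ) 0 ≠ 0 := h.ne _ _ (by rw [Complex.ofReal_re]; linarith)
    (by rw [Complex.ofReal_re]; linarith)
  have n3 : 1 - ee ((ε : ℂ) / η) ≠ 0 := by
    intro h6
    rw [h6, zero_mul] at k1
    exact n2 k1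
  have k2 : E (-(1 / (c : ℂ)) + ε) a = E ε 0 / (1 - ee ((ε : ℂ) / η)) := by
    rw [eq_div_iff n3, k1]; ring
  simp only [Pi.div_apply]
  unfold RRz
  rw [k2, show -(1 / (c : ℂ)) + (ε : ℂ) + ρ = ρ - 1 / c + ε by ring, add_comm μ (a : ZMod c),
    ← xt_psi (η := η) h.adc (ρ : ℂ) μ (ε : ℂ)]
  ring

/-- The value of the quotient for `0 < ρ < 1/c`. -/
theorem LevE.base (h : LevE c a d η E) {ρ : ℝ} (μ : ZMod c) (h1 : 0 < ρ) (h2 : ρ < 1 / c)
    {u : ℝ} (hu : 0 < u) (hu' : u < ρ) {w : ℂ} (k : ZMod c)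
    (h3 : -(1 / c : ℝ) < w.re) (h4 : w.re < η / c - ρ) :
    Complex.I * JP a d η E ρ μ w k u = RRz a d η E ρ μ w k := by
  have hc := c_pos (c := c)
  have hη1 := h.one_lt
  have hη : 0 < η := by linarith
  have e0 : (1 + η) / (c : ℝ) = 1 / c + η / c := by ring
  have h0 : 0 < 1 / (c : ℝ) := by positivity
  have h1c : 1 / (c : ℝ) < η / c := by gcongr
  have hρ' : ρ < (1 + η) / c := by linarith
  set M := MM a d η E ρ μ u w k with hM
  have hpR := h.pinch_R h1 hρ' μ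
  have hpJ := h.pinch_J hρ' hu hu' μ
  have hev : ∀ᶠ ε : ℝ in 𝓝[>] 0, ε < η / c + 1 / c - ρ :=
    mem_nhdsWithin_of_mem_nhds (gt_mem_nhds (by linarith))
  have hpM : Tendsto (fun ε : ℝ => (ε : ℂ) * JP a d η E ρ μ (-(1 / c) + ε) a u) (𝓝[>] 0)
      (𝓝 (M * (Complex.I * ((η / (2 * Real.pi) : ℝ) : ℂ)))) := by
    refine (hpR.const_mul M).congr' ?_
    filter_upwards [self_mem_nhdsWithin, hev] with ε hε hε2
    have hε0 : 0 < ε := hε
    have r2 : (-(1 / (c : ℂ)) + (ε : ℂ)).re = -(1 / c) + ε := by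
      rw [show -(1 / (c : ℂ)) + (ε : ℂ) = ((-(1 / c) + ε : ℝ) : ℂ) by push_cast; ring,
        Complex.ofReal_re]
    have e1 : M = MM a d η E ρ μ u (-(1 / c) + ε) a :=
      h.MM_const μ h1 h2 hu hu' k a h3 h4 (by rw [r2]; linarith) (by rw [r2]; linarith)
    have n := h.RR_ne (w := -(1 / c) + ε) μ (a : ZMod c) h1 (by rw [r2]; linarith)
      (by rw [r2]; linarith)
    rw [e1]
    unfold MM
    field_simp
  have hu1 := tendsto_nhds_unique hpM hpJ
  have hv : ((η / (2 * Real.pi) : ℝ) : ℂ) ≠ 0 := by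
    have : 0 < η / (2 * Real.pi) := by
      have := Real.pi_pos
      positivity
    exact_mod_cast this.ne'
  have e2 : M * Complex.I = 1 := by
    have : (M * Complex.I) * ((η / (2 * Real.pi) : ℝ) : ℂ) =
        1 * ((η / (2 * Real.pi) : ℝ) : ℂ) := by
      rw [one_mul, mul_assoc]; exact hu1
    exact mul_right_cancel₀ hv this
  have n := h.RR_ne μ k h1 h3 h4
  have e3 : JP a d η E ρ μ w k u = M * RRz a d η E ρ μ w k := by
    rw [hM, MM, div_mul_cancel₀ _ n]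
  rw [e3, ← mul_assoc, mul_comm Complex.I, e2, one_mul]

theorem LevE.JP_shift (h : LevE c a d η E) {ρ : ℝ} (μ : ZMod c) {w : ℂ} (k : ZMod c)
    (h3 : -(1 / c : ℝ) < w.re) (h4 : w.re < η / c - ρ) {u v : ℝ} (hu : 0 < u) (hu' : u < ρ)
    (hv : 0 < v) (hv' : v < ρ) : JP a d η E ρ μ w k u = JP a d η E ρ μ w k v :=
  h.JJ_shift (μ + 1) k h3 (by linarith) hu (by linarith) hv (by linarith)

/-- One step `p → p + s1`. -/
theorem LevE.step (h : LevE c a d η E) {ρ : ℝ} (h1 : 0 < ρ) (μ : ZMod c)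
    (ih : ∀ (w : ℂ) (k : ZMod c) (u : ℝ), -(1 / c : ℝ) < w.re → w.re < η / c - ρ → 0 < u →
      u < ρ → Complex.I * JP a d η E ρ μ w k u = RRz a d η E ρ μ w k)
    {w : ℂ} (k : ZMod c) {u : ℝ} (h3 : -(1 / c : ℝ) < w.re) (h4 : w.re < η / c - (ρ + 1 / c))
    (hu : 0 < u) (hu' : u < ρ + 1 / c) :
    Complex.I * JP a d η E (ρ + 1 / c) (μ - a) w k u = RRz a d η E (ρ + 1 / c) (μ - a) w k := by
  have hc := c_pos (c := c)
  have hη1 := h.one_lt
  have hη : 0 < η := by linarith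
  have h0 : 0 < 1 / (c : ℝ) := by positivity
  have r1 : (w + (1 : ℂ) / c).re = w.re + 1 / c := by
    simp only [Complex.add_re, re_one_div]
  rw [h.JP_shift (μ - a) k h3 (by linarith) hu hu' (v := ρ / 2) (by linarith) (by linarith)]
  have e1 : JP a d η E (ρ + 1 / c) (μ - a) w k (ρ / 2) = JP a d η E ρ μ w k (ρ / 2) -
      (xt η ρ μ)⁻¹ * JP a d η E ρ μ (w + 1 / c) (k - a) (ρ / 2) := by
    have := h.JJ_ps1 (τ := ρ - η / c) (μ + 1) (w := w) k h3 (by linarith) (u := ρ / 2)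
      (by linarith) (by linarith)
    rw [xt_ps2 hη.ne'] at this
    unfold JP
    rw [← this, show ρ - η / c + 1 / c = ρ + 1 / c - η / c by ring,
      show μ + 1 - (a : ZMod c) = μ - a + 1 by ring]
  rw [e1, mul_sub, mul_left_comm, ih w k _ h3 (by linarith) (by linarith) (by linarith),
    ih (w + 1 / c) (k - a) _ (by rw [r1]; linarith) (by rw [r1]; linarith) (by linarith)
      (by linarith)]
  obtain ⟨g1, g2, g3⟩ := h.RR_rel1 μ k h1 h3 (by linarith)
  have r2 : (w + (ρ : ℂ)).re = w.re + ρ := by simp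
  have r3 : ((ρ : ℂ) - (1 : ℂ) / c).re = ρ - 1 / c := by
    simp only [Complex.sub_re, re_one_div, Complex.ofReal_re]
  have k2 := h.s1 (w + ρ) (k + μ) (by rw [r2]; linarith) (by rw [r2]; linarith)
  have k3 := h.s1 ((ρ : ℂ) - 1 / c) (μ + a) (by rw [r3]; linarith) (by rw [r3]; linarith)
  rw [sub_add_cancel, add_sub_cancel_right] at k3
  have e2 : xt η (w + ρ + 1 / c) (k + μ - (a : ZMod c)) =
      xt η (w + 1 / c) (k - (a : ZMod c)) * xt η ρ μ := by
    rw [← xt_add]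
    congr 1
    · ring
    · ring
  rw [e2] at k2
  have n3 : E (w + ρ) (k + μ) ≠ 0 := h.ne _ _ (by rw [r2]; linarith) (by rw [r2]; linarith)
  have n4 : E 0 0 ≠ 0 := by
    refine h.ne _ _ ?_ ?_
    · simpa using h0
    · have : 0 < η / (c : ℝ) := by positivity
      simpa using this
  have hP : xt η (ρ : ℂ) μ ≠ 0 := xt_ne _ _
  have e3 : RRz a d η E (ρ + 1 / c) (μ - a) w k = xt η (ρ : ℂ) μ *
      xt η (w + 1 / c) (k - (a : ZMod c)) * ((1 - xt η ρ μ) * E (ρ - 1 / c) (μ + a)) * E w k *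
      psi d η ρ μ w k / (E 0 0 * ((1 - xt η (w + 1 / c) (k - (a : ZMod c)) * xt η ρ μ) *
        E (w + ρ) (k + μ))) := by
    unfold RRz
    rw [← k2, ← k3, show ((ρ + 1 / c : ℝ) : ℂ) = (ρ : ℂ) + 1 / c by push_cast; ring,
      show (ρ : ℂ) + 1 / c - 1 / c = ρ by ring, show μ - (a : ZMod c) + a = μ by ring,
      show w + ((ρ : ℂ) + 1 / c) = w + ρ + 1 / c by ring,
      show k + (μ - (a : ZMod c)) = k + μ - a by ring,
      show μ - (a : ZMod c) = μ + -a by ring, xt_add, psi_add,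
      psi_comm (1 / c : ℂ) (-(a : ZMod c)) w k, psi_s1 h.adc,
      show k - (a : ZMod c) = k + -a by ring, xt_add]
    ring
  have e4 : RRz a d η E ρ μ (w + 1 / c) (k - (a : ZMod c)) = RRz a d η E ρ μ w k *
      ((1 - xt η (w + 1 / c) (k - (a : ZMod c))) * xt η ρ μ) /
        (1 - xt η (w + 1 / c) (k - (a : ZMod c)) * xt η ρ μ) := by
    rw [eq_div_iff g2]; exact g1
  rw [e3, e4]
  unfold RRz
  set X := xt η (w + 1 / c) (k - (a : ZMod c))
  set P := xt η (ρ : ℂ) μ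
  set e := E w k
  set f := E (w + ρ) (k + μ)
  set g := E ((ρ : ℂ) - 1 / c) (μ + a)
  set s := psi d η ρ μ w k
  have n5 : 1 - P * X ≠ 0 := by rwa [mul_comm P X]
  field_simp
  ring

/-- **The level `c` beta integral.** -/
theorem LevE.beta (h : LevE c a d η E) : ∀ (n : ℕ) {ρ : ℝ} (μ : ZMod c), (n : ℝ) / c < ρ →
    ρ < (n + 1) / c → ∀ (w : ℂ) (k : ZMod c) (u : ℝ), -(1 / c : ℝ) < w.re →
    w.re < η / c - ρ → 0 < u → u < ρ →
    Complex.I * JP a d η E ρ μ w k u = RRz a d η E ρ μ w k := by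
  have hc := c_pos (c := c)
  intro n
  induction n with
  | zero =>
    intro ρ μ h1 h2 w k u h3 h4 hu hu'
    exact h.base μ (by simpa using h1) (by simpa using h2) hu hu' k h3 h4
  | succ n ih =>
    intro ρ μ h1 h2 w k u h3 h4 hu hu'
    have e1 : ((n + 1 : ℕ) : ℝ) / c = n / c + 1 / c := by push_cast; ring
    have e2 : (((n + 1 : ℕ) : ℝ) + 1) / c = (n + 1) / c + 1 / c := by push_cast; ring
    have hn : (0 : ℝ) ≤ n / c := by positivity
    rw [e1] at h1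
    rw [e2] at h2
    have := h.step (ρ := ρ - 1 / c) (by linarith) (μ + a)
      (fun w k u a1 a2 a3 a4 => ih (μ + a) (by linarith) (by linarith) w k u a1 a2 a3 a4)
      (w := w) k (u := u) h3 (by linarith) hu (by linarith)
    rwa [sub_add_cancel, add_sub_cancel_right] at this

end Pool.Agent.MP_d0f9e0_co.AN38
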