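import Pool.Agent.Lib.MP_d0f9e0_co.AN38.Pt

/-!
# The level `c` beta integral: bounds, integrability, holomorphy, shift of the line
-/

set_option autoImplicit false

open MeasureTheory Filter Topology Set

namespace Pool.Agent.MP_d0f9e0_co.AN38

variable {c : ℕ} [NeZero c] {a d : ℤ} {η : ℝ} {E : ℂ → ZMod c → ℂ}

theorem norm_xt (z : ℂ) (m : ZMod c) : ‖xt η z m‖ = Real.exp (-(2 * Real.pi * z.im / η)) := by
  unfold xt
  rw [norm_mul, norm_chi, mul_one, norm_ee]
  congr 1
  have : (z / (η : ℂ)).im = z.im / η := Complex.div_ofReal_im z η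
  rw [this]
  ring

theorem norm_psi (z : ℂ) (m : ZMod c) (w : ℂ) (k : ZMod c) : ‖psi d η z m w k‖ =
    Real.exp (-(2 * Real.pi * c / η * (z.re * w.im + z.im * w.re))) := by
  unfold psi
  rw [norm_mul, norm_chi, mul_one, norm_ee]
  congr 1
  have e1 : ((c : ℂ) * z * w / (η : ℂ)).im = ((c : ℂ) * z * w).im / η :=
    Complex.div_ofReal_im _ η
  have e2 : ((c : ℂ) * z * w).im = c * (z * w).im := by
    rw [mul_assoc, show (c : ℂ) = ((c : ℝ) : ℂ) by push_cast; rfl, Complex.im_ofReal_mul]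
  rw [e1, e2, Complex.mul_im]
  ring

/-- The bound of the integrand. -/
theorem LevE.bd (h : LevE c a d η E) {τ A B : ℝ} (hτ : τ < 1 / c) (hA : 0 < A)
    (hB : B < τ + η / c) : ∃ C : ℝ, 0 ≤ C ∧ ∀ (κ : ℝ) (ν : ZMod c) (w : ℂ) (k : ZMod c) (z : ℂ)
      (m : ZMod c), κ ≤ 1 / c + w.re → κ ≤ -(τ + w.re) → A ≤ z.re → z.re ≤ B →
      ‖KK a d η E τ ν w k z m‖ ≤
        C * Real.exp (-(2 * Real.pi * c / η * (z.re * w.im + κ * |z.im|))) := by
  have hc := c_pos (c := c)
  have hη : 0 < η := by have := h.one_lt; linarith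
  have hpi := Real.pi_pos
  have e0 : (1 + η) / c = 1 / c + η / c := by ring
  obtain ⟨C1, hC1⟩ := h.up (A - 1 / c) (B - 1 / c) (by linarith) (by linarith)
  obtain ⟨C2, hC2⟩ := h.up (A - τ) (B - τ) (by linarith) (by linarith)
  obtain ⟨C3, hC3⟩ := h.dn (A - 1 / c) (B - 1 / c) (by linarith) (by linarith)
  obtain ⟨C4, hC4⟩ := h.dn (A - τ) (B - τ) (by linarith) (by linarith)
  refine ⟨|C1| * |C2| + |C3| * |C4|, by positivity, ?_⟩
  intro κ ν w k z m h1 h2 h3 h4
  have r1 : (z - (1 : ℂ) / c).re = z.re - 1 / c := by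
    simp only [Complex.sub_re, re_one_div]
  have i1 : (z - (1 : ℂ) / c).im = z.im := by
    simp only [Complex.sub_im, im_one_div, sub_zero]
  have r2 : (z - (τ : ℂ)).re = z.re - τ := by simp
  have i2 : (z - (τ : ℂ)).im = z.im := by simp
  unfold KK
  rw [norm_mul, norm_mul, norm_mul, norm_xt, norm_psi]
  have hk : 0 ≤ 2 * Real.pi * c / η := by positivity
  rcases le_total 0 z.im with hz | hz
  · have b1 := (hC1 (z - 1 / c) (m + a) (by rw [r1]; linarith) (by rw [r1]; linarith)
      (by rw [i1]; exact hz)).1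
    have b2 := (hC2 (z - τ) (m - ν) (by rw [r2]; linarith) (by rw [r2]; linarith)
      (by rw [i2]; exact hz)).2
    rw [abs_of_nonneg hz]
    calc Real.exp (-(2 * Real.pi * z.im / η)) * ‖E (z - 1 / c) (m + a)‖ *
          ‖(E (z - τ) (m - ν))⁻¹‖ *
          Real.exp (-(2 * Real.pi * c / η * (z.re * w.im + z.im * w.re)))
        ≤ Real.exp (-(2 * Real.pi * z.im / η)) * |C1| * |C2| *
          Real.exp (-(2 * Real.pi * c / η * (z.re * w.im + z.im * w.re))) := by
          gcongr
          · exact b1.trans (le_abs_self _)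
          · exact b2.trans (le_abs_self _)
      _ = |C1| * |C2| * Real.exp (-(2 * Real.pi * c / η * (z.re * w.im +
            (1 / c + w.re) * z.im))) := by
          rw [show Real.exp (-(2 * Real.pi * z.im / η)) * |C1| * |C2| *
            Real.exp (-(2 * Real.pi * c / η * (z.re * w.im + z.im * w.re))) = |C1| * |C2| *
            (Real.exp (-(2 * Real.pi * z.im / η)) *
            Real.exp (-(2 * Real.pi * c / η * (z.re * w.im + z.im * w.re)))) by ring,
            ← Real.exp_add]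
          congr 2
          field_simp
          ring
      _ ≤ |C1| * |C2| * Real.exp (-(2 * Real.pi * c / η * (z.re * w.im + κ * z.im))) := by
          gcongr
      _ ≤ _ := by
          refine mul_le_mul_of_nonneg_right ?_ (Real.exp_pos _).le
          linarith [mul_nonneg (abs_nonneg C3) (abs_nonneg C4)]
  · have b1 := (hC3 (z - 1 / c) (m + a) (by rw [r1]; linarith) (by rw [r1]; linarith)
      (by rw [i1]; exact hz)).1
    have b2 := (hC4 (z - τ) (m - ν) (by rw [r2]; linarith) (by rw [r2]; linarith)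
      (by rw [i2]; exact hz)).2
    rw [r1, i1] at b1
    rw [r2, i2] at b2
    rw [abs_of_nonpos hz]
    set E1 := Real.exp (-(z.im * (2 * Real.pi * c * (z.re - 1 / c) / η -
      Real.pi * (1 - 1 / η)))) with hE1
    set E2 := Real.exp (z.im * (2 * Real.pi * c * (z.re - τ) / η -
      Real.pi * (1 - 1 / η))) with hE2
    have p1 : 0 < E1 := Real.exp_pos _
    have p2 : 0 < E2 := Real.exp_pos _
    calc Real.exp (-(2 * Real.pi * z.im / η)) * ‖E (z - 1 / c) (m + a)‖ *
          ‖(E (z - τ) (m - ν))⁻¹‖ *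
          Real.exp (-(2 * Real.pi * c / η * (z.re * w.im + z.im * w.re)))
        ≤ Real.exp (-(2 * Real.pi * z.im / η)) * (|C3| * E1) * (|C4| * E2) *
          Real.exp (-(2 * Real.pi * c / η * (z.re * w.im + z.im * w.re))) := by
          gcongr
          · exact b1.trans (mul_le_mul_of_nonneg_right (le_abs_self _) p1.le)
          · exact b2.trans (mul_le_mul_of_nonneg_right (le_abs_self _) p2.le)
      _ = |C3| * |C4| * Real.exp (-(2 * Real.pi * c / η * (z.re * w.im +
            (-(τ + w.re)) * (-z.im)))) := by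
          rw [show Real.exp (-(2 * Real.pi * z.im / η)) * (|C3| * E1) * (|C4| * E2) *
            Real.exp (-(2 * Real.pi * c / η * (z.re * w.im + z.im * w.re))) = |C3| * |C4| *
            (Real.exp (-(2 * Real.pi * z.im / η)) * E1 * E2 *
            Real.exp (-(2 * Real.pi * c / η * (z.re * w.im + z.im * w.re)))) by ring,
            hE1, hE2, ← Real.exp_add, ← Real.exp_add, ← Real.exp_add]
          congr 2
          field_simp
          ring
      _ ≤ |C3| * |C4| * Real.exp (-(2 * Real.pi * c / η * (z.re * w.im + κ * (-z.im)))) := by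
          have : 0 ≤ -z.im := by linarith
          gcongr
      _ ≤ _ := by
          refine mul_le_mul_of_nonneg_right ?_ (Real.exp_pos _).le
          linarith [mul_nonneg (abs_nonneg C1) (abs_nonneg C2)]

/-- The locally uniform exponential decay of the integrand. -/
theorem LevE.locbd (h : LevE c a d η E) {τ : ℝ} (ν : ZMod c) {z0 w0 : ℂ}
    (h1 : 0 < z0.re) (h2 : z0.re < τ + η / c) (h3 : -(1 / c : ℝ) < w0.re) (h4 : τ + w0.re < 0) :
    ∃ C κ : ℝ, 0 < κ ∧ ∀ᶠ q : ℂ × ℂ in 𝓝 (z0, w0), ∀ (t : ℝ) (k m : ZMod c),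
      ‖KK a d η E τ ν q.2 k (q.1 + t * Complex.I) m‖ ≤ C * Real.exp (-κ * |t|) := by
  have hc := c_pos (c := c)
  have hη : 0 < η := by have := h.one_lt; linarith
  have hpi := Real.pi_pos
  obtain ⟨C, hC0, hC⟩ := h.bd (τ := τ) (A := z0.re / 2) (B := (z0.re + (τ + η / c)) / 2)
    (by linarith) (by linarith) (by linarith)
  set κ1 : ℝ := min (1 / c + w0.re) (-(τ + w0.re)) / 2 with hκ1
  have hκ0 : 0 < min (1 / c + w0.re) (-(τ + w0.re)) := lt_min (by linarith) (by linarith)
  have m1 : min (1 / c + w0.re) (-(τ + w0.re)) ≤ 1 / c + w0.re := min_le_left _ _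
  have m2 : min (1 / c + w0.re) (-(τ + w0.re)) ≤ -(τ + w0.re) := min_le_right _ _
  have hκ1p : 0 < κ1 := by positivity
  set M : ℝ := |z0.re * w0.im| + 1 + κ1 * (|z0.im| + 1) with hM
  refine ⟨C * Real.exp (2 * Real.pi * c / η * M), 2 * Real.pi * c / η * κ1, by positivity, ?_⟩
  have c1 : Continuous (fun q : ℂ × ℂ => q.1.re) := by fun_prop
  have c2 : Continuous (fun q : ℂ × ℂ => q.2.re) := by fun_prop
  have c3 : Continuous (fun q : ℂ × ℂ => |q.1.re * q.2.im|) := by fun_prop
  have c4 : Continuous (fun q : ℂ × ℂ => |q.1.im|) := by fun_prop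
  have n1 := (c1.tendsto (z0, w0)).eventually
    (isOpen_Ioo.mem_nhds (show (z0, w0).1.re ∈ Ioo (z0.re / 2) ((z0.re + (τ + η / c)) / 2) from
      ⟨by show z0.re / 2 < z0.re; linarith, by show z0.re < _; linarith⟩))
  have n2 := (c2.tendsto (z0, w0)).eventually
    (isOpen_Ioo.mem_nhds (show (z0, w0).2.re ∈ Ioo (-(1 / c : ℝ) + κ1) (-τ - κ1) from
      ⟨by show -(1 / c : ℝ) + κ1 < w0.re; linarith, by show w0.re < _; linarith⟩))
  have n3 := (c3.tendsto (z0, w0)).eventually
    (gt_mem_nhds (show |(z0, w0).1.re * (z0, w0).2.im| < |z0.re * w0.im| + 1 by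
      show |z0.re * w0.im| < _; linarith))
  have n4 := (c4.tendsto (z0, w0)).eventually
    (gt_mem_nhds (show |(z0, w0).1.im| < |z0.im| + 1 by show |z0.im| < _; linarith))
  filter_upwards [n1, n2, n3, n4] with q q1 q2 q3 q4
  intro t k m
  have r1 : (q.1 + t * Complex.I).re = q.1.re := by simp
  have i1 : (q.1 + t * Complex.I).im = q.1.im + t := by simp
  have key := hC κ1 ν q.2 k (q.1 + t * Complex.I) m (by linarith [q2.1]) (by linarith [q2.2])
    (by rw [r1]; exact q1.1.le) (by rw [r1]; exact q1.2.le)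
  rw [r1, i1] at key
  refine key.trans ?_
  rw [mul_assoc C, ← Real.exp_add]
  refine mul_le_mul_of_nonneg_left (Real.exp_le_exp.2 ?_) hC0
  have hk : 0 ≤ 2 * Real.pi * c / η := by positivity
  have t1 : |t| ≤ |q.1.im + t| + |q.1.im| := by
    have := abs_sub (q.1.im + t) q.1.im
    rwa [add_sub_cancel_left] at this
  have t2 : -(q.1.re * q.2.im) ≤ |q.1.re * q.2.im| := neg_le_abs _
  have t3 : -(q.1.re * q.2.im + κ1 * |q.1.im + t|) ≤ M - κ1 * |t| := by
    have : κ1 * |t| ≤ κ1 * (|q.1.im + t| + |q.1.im|) := mul_le_mul_of_nonneg_left t1 hκ1p.le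
    have t5 : κ1 * |q.1.im| ≤ κ1 * (|z0.im| + 1) := mul_le_mul_of_nonneg_left q4.le hκ1p.le
    have t6 : |q.1.re * q.2.im| < |z0.re * w0.im| + 1 := q3
    rw [hM]
    linarith
  calc -(2 * Real.pi * c / η * (q.1.re * q.2.im + κ1 * |q.1.im + t|))
      = 2 * Real.pi * c / η * (-(q.1.re * q.2.im + κ1 * |q.1.im + t|)) := by ring
    _ ≤ 2 * Real.pi * c / η * (M - κ1 * |t|) := mul_le_mul_of_nonneg_left t3 hk
    _ = _ := by ring

theorem isOpen_strip (A B : ℝ) : IsOpen {z : ℂ | A < z.re ∧ z.re < B} :=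
  (isOpen_lt continuous_const Complex.continuous_re).inter
    (isOpen_lt Complex.continuous_re continuous_const)

theorem LevE.diffAt (h : LevE c a d η E) {z : ℂ} (m : ZMod c) (h1 : -(1 / c : ℝ) < z.re)
    (h2 : z.re < η / c) : DifferentiableAt ℂ (fun z => E z m) z :=
  (h.diff m).differentiableAt ((isOpen_strip _ _).mem_nhds ⟨h1, h2⟩)

/-- The integrand is holomorphic in `z`. -/
theorem LevE.diffz (h : LevE c a d η E) {τ : ℝ} (hτ : τ < 1 / c) (ν : ZMod c) (w : ℂ)
    (k m : ZMod c) {z : ℂ} (h1 : 0 < z.re) (h2 : z.re < τ + η / c) :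
    DifferentiableAt ℂ (fun z => KK a d η E τ ν w k z m) z := by
  have r1 : (z - (1 : ℂ) / c).re = z.re - 1 / c := by
    simp only [Complex.sub_re, re_one_div]
  have r2 : (z - (τ : ℂ)).re = z.re - τ := by simp
  unfold KK
  have d1 : DifferentiableAt ℂ (fun z : ℂ => xt η z m) z := by
    unfold xt
    exact ((differentiable_ee.comp (differentiable_id.div_const _)) z).mul_const _
  have d2 : DifferentiableAt ℂ (fun z : ℂ => E (z - 1 / c) (m + a)) z := by
    refine DifferentiableAt.comp (g := fun z => E z (m + a)) (f := fun z : ℂ => z - 1 / c) z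
      (h.diffAt _ (by rw [r1]; linarith) (by rw [r1]; linarith)) (by fun_prop)
  have d3 : DifferentiableAt ℂ (fun z : ℂ => E (z - τ) (m - ν)) z := by
    refine DifferentiableAt.comp (g := fun z => E z (m - ν)) (f := fun z : ℂ => z - τ) z
      (h.diffAt _ (by rw [r2]; linarith) (by rw [r2]; linarith)) (by fun_prop)
  have n3 : E (z - τ) (m - ν) ≠ 0 := h.ne _ _ (by rw [r2]; linarith) (by rw [r2]; linarith)
  have d4 : DifferentiableAt ℂ (fun z : ℂ => psi d η z m w k) z := by
    unfold psi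
    refine DifferentiableAt.mul_const ?_ _
    exact DifferentiableAt.comp (g := ee) (f := fun z : ℂ => c * z * w / η) z
      (differentiable_ee _) (by fun_prop)
  exact ((d1.mul d2).mul (d3.inv n3)).mul d4

/-- The integrand is entire in `w`. -/
theorem diffw {τ : ℝ} (ν : ZMod c) (k : ZMod c) (z : ℂ) (m : ZMod c) :
    Differentiable ℂ (fun w => KK a d η E τ ν w k z m) := by
  unfold KK psi
  refine Differentiable.const_mul ?_ _
  refine Differentiable.mul_const ?_ _
  exact differentiable_ee.comp (by fun_prop)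

theorem LevE.cont (h : LevE c a d η E) {τ : ℝ} (hτ : τ < 1 / c) (ν : ZMod c) (w : ℂ)
    (k m : ZMod c) {z : ℂ} (h1 : 0 < z.re) (h2 : z.re < τ + η / c) :
    Continuous (fun t : ℝ => KK a d η E τ ν w k (z + t * Complex.I) m) := by
  rw [continuous_iff_continuousAt]
  intro t
  have h3 := (h.diffz hτ ν w k m (z := z + t * Complex.I) (by simpa using h1)
    (by simpa using h2)).continuousAt
  have h4 : ContinuousAt (fun t : ℝ => z + (t : ℂ) * Complex.I) t := by fun_prop
  exact ContinuousAt.comp (f := fun t : ℝ => z + (t : ℂ) * Complex.I) h3 h4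

theorem LevE.integrable (h : LevE c a d η E) {τ : ℝ} (ν : ZMod c) {w : ℂ}
    (k m : ZMod c) {z : ℂ} (h1 : 0 < z.re) (h2 : z.re < τ + η / c) (h3 : -(1 / c : ℝ) < w.re)
    (h4 : τ + w.re < 0) :
    Integrable (fun t : ℝ => KK a d η E τ ν w k (z + t * Complex.I) m) := by
  obtain ⟨C, κ, hκ, hev⟩ := h.locbd ν h1 h2 h3 h4
  have h5 := hev.self_of_nhds
  refine Integrable.mono' (B94.integrable_exp_abs hκ C)
    (h.cont (by linarith) ν w k m h1 h2).aestronglyMeasurable
    (Eventually.of_forall fun t => ?_)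
  exact h5 t k m

/-- The integral is holomorphic in `w`. -/
theorem LevE.diffInt (h : LevE c a d η E) {τ : ℝ} (ν : ZMod c) (k m : ZMod c) {z : ℂ}
    (h1 : 0 < z.re) (h2 : z.re < τ + η / c) :
    DifferentiableOn ℂ (fun w => ∫ t : ℝ, KK a d η E τ ν w k (z + t * Complex.I) m)
      {w : ℂ | -(1 / c : ℝ) < w.re ∧ w.re < -τ} := by
  refine B94.holo_int (isOpen_strip _ _) ?_ ?_ ?_
  · intro t w _
    exact (diffw ν k _ m w).differentiableWithinAt
  · intro w hw
    exact (h.integrable ν k m h1 h2 hw.1 (by linarith [hw.2])).aestronglyMeasurable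
  · intro w0 hw0
    obtain ⟨C, κ, hκ, hev⟩ := h.locbd ν h1 h2 hw0.1 (show τ + w0.re < 0 by linarith [hw0.2])
    refine ⟨_, B94.integrable_exp_abs hκ C, ?_⟩
    have hcont : Tendsto (fun w => ((z, w) : ℂ × ℂ)) (𝓝 w0) (𝓝 (z, w0)) :=
      (continuous_const.prodMk continuous_id).tendsto w0
    filter_upwards [hcont.eventually hev] with w hw
    intro t
    exact hw t k m

/-- The integral does not depend on the line. -/
theorem LevE.shift (h : LevE c a d η E) {τ : ℝ} (ν : ZMod c) {w : ℂ} (k m : ZMod c)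
    (h3 : -(1 / c : ℝ) < w.re) (h4 : τ + w.re < 0) {u v : ℝ} (hu : 0 < u) (hu' : u < τ + η / c)
    (hv : 0 < v) (hv' : v < τ + η / c) :
    ∫ t : ℝ, KK a d η E τ ν w k (u + t * Complex.I) m =
      ∫ t : ℝ, KK a d η E τ ν w k (v + t * Complex.I) m := by
  refine B94.shift_const (f := fun z => KK a d η E τ ν w k z m) (a := 0) (b := τ + η / c)
    ?_ ?_ hu hu' hv hv'
  · intro z hz
    exact (h.diffz (by linarith) ν w k m hz.1 hz.2).differentiableWithinAt
  · intro z0 hz1 hz2
    obtain ⟨C, κ, hκ, hev⟩ := h.locbd ν hz1 hz2 h3 h4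
    refine ⟨_, B94.integrable_exp_abs hκ C, ?_⟩
    have hcont : Tendsto (fun z => ((z, w) : ℂ × ℂ)) (𝓝 z0) (𝓝 (z0, w)) :=
      (continuous_id.prodMk continuous_const).tendsto z0
    filter_upwards [hcont.eventually hev] with z hz
    intro t
    exact hz t k m

theorem LevE.JJ_shift (h : LevE c a d η E) {τ : ℝ} (ν : ZMod c) {w : ℂ} (k : ZMod c)
    (h3 : -(1 / c : ℝ) < w.re) (h4 : τ + w.re < 0) {u v : ℝ} (hu : 0 < u) (hu' : u < τ + η / c)
    (hv : 0 < v) (hv' : v < τ + η / c) : JJ a d η E τ ν w k u = JJ a d η E τ ν w k v :=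
  Finset.sum_congr rfl fun m _ => h.shift ν k m h3 h4 hu hu' hv hv'

end Pool.Agent.MP_d0f9e0_co.AN38
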