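import Pool.Agent.Lib.MP_d0f9e0_co.B94a

/-!
# The level `c` quantum dilogarithm: abstract interface (note 9411, layer S3)

`H = ℂ × ZMod c`, points `(z, m)`; `xt = e(z/η + m/c)`, `xx = e(z + d m/c)`, `qq = e(β)`,
`β = (η - d)/c`; `s1 = (1/c, -a)`, `s2 = (η/c, -1)`;
`psi (z,m) (w,k) = e(c z w/η - d m k/c)`.
`E` is holomorphic for `Re z > -1/c`, `Ei = 1/E` is holomorphic for `Re z < η/c`.
-/

set_option autoImplicit false

open MeasureTheory Filter Topology Set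

namespace Pool.Agent.MP_d0f9e0_co.AN38

/-- `e(t) = exp (2 π i t)`. -/
noncomputable def ee (t : ℂ) : ℂ := Complex.exp (2 * Real.pi * Complex.I * t)

theorem ee_add (s t : ℂ) : ee (s + t) = ee s * ee t := by
  rw [ee, ee, ee, ← Complex.exp_add]; congr 1; ring

theorem ee_zero : ee 0 = 1 := by simp [ee]

theorem ee_ne (t : ℂ) : ee t ≠ 0 := Complex.exp_ne_zero _

theorem ee_neg (t : ℂ) : ee (-t) = (ee t)⁻¹ := by
  rw [ee, ee, ← Complex.exp_neg]; congr 1; ring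

theorem ee_sub (s t : ℂ) : ee (s - t) = ee s / ee t := by
  rw [sub_eq_add_neg, ee_add, ee_neg, div_eq_mul_inv]

theorem ee_int (n : ℤ) : ee n = 1 := by
  rw [ee, show 2 * (Real.pi : ℂ) * Complex.I * (n : ℂ) = n * (2 * Real.pi * Complex.I) by ring]
  exact Complex.exp_int_mul_two_pi_mul_I n

theorem norm_ee (t : ℂ) : ‖ee t‖ = Real.exp (-(2 * Real.pi * t.im)) := by
  rw [ee, Complex.norm_exp]
  congr 1
  rw [show 2 * (Real.pi : ℂ) * Complex.I * t = ((2 * Real.pi : ℝ) : ℂ) * (Complex.I * t) by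
    push_cast; ring, Complex.re_ofReal_mul]
  simp

theorem differentiable_ee : Differentiable ℂ ee := by
  unfold ee
  exact (differentiable_id.const_mul _).cexp

/-- `χ(m) = e(m/c)`. -/
noncomputable def chi {c : ℕ} [NeZero c] (m : ZMod c) : ℂ := ZMod.stdAddChar m

section
variable {c : ℕ} [NeZero c]

theorem chi_add (m k : ZMod c) : chi (m + k) = chi m * chi k := AddChar.map_add_eq_mul _ _ _

theorem chi_zero : chi (0 : ZMod c) = 1 := AddChar.map_zero_eq_one _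

theorem norm_chi (m : ZMod c) : ‖chi m‖ = 1 := by
  rw [chi, ZMod.stdAddChar_apply]
  exact Circle.norm_coe _

theorem chi_ne (m : ZMod c) : chi m ≠ 0 := by
  have := norm_chi m
  intro h
  rw [h, norm_zero] at this
  exact zero_ne_one this

theorem chi_neg (m : ZMod c) : chi (-m) = (chi m)⁻¹ := by
  have := chi_add (-m) m
  rw [neg_add_cancel, chi_zero] at this
  exact eq_inv_of_mul_eq_one_left this.symm

theorem chi_sub (m k : ZMod c) : chi (m - k) = chi m / chi k := by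
  rw [sub_eq_add_neg, chi_add, chi_neg, div_eq_mul_inv]

theorem chi_int (j : ℤ) : chi (j : ZMod c) = ee ((j : ℂ) / c) := by
  rw [chi, ZMod.stdAddChar_coe, ee]
  congr 1
  ring

end

/-- `e(z/η + m/c)`. -/
noncomputable def xt {c : ℕ} [NeZero c] (η : ℝ) (z : ℂ) (m : ZMod c) : ℂ := ee (z / η) * chi m

/-- `e(z + d m/c)`. -/
noncomputable def xx {c : ℕ} [NeZero c] (d : ℤ) (z : ℂ) (m : ZMod c) : ℂ :=
  ee z * chi ((d : ZMod c) * m)

/-- The kernel `e(c z w/η - d m k/c)`. -/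
noncomputable def psi {c : ℕ} [NeZero c] (d : ℤ) (η : ℝ) (z : ℂ) (m : ZMod c) (w : ℂ)
    (k : ZMod c) : ℂ := ee (c * z * w / η) * chi (-((d : ZMod c) * m * k))

/-- The interface: the level `c` function `E` on its natural strip `-1/c < Re z < η/c`. -/
structure LevE (c : ℕ) [NeZero c] (a d : ℤ) (η : ℝ) (E : ℂ → ZMod c → ℂ) : Prop where
  one_lt : 1 < η
  irr : Irrational η
  adc : (a : ZMod c) * (d : ZMod c) = 1
  diff : ∀ m, DifferentiableOn ℂ (fun z => E z m) {z : ℂ | -(1 / c : ℝ) < z.re ∧ z.re < η / c}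
  ne : ∀ (z : ℂ) (m : ZMod c), -(1 / c : ℝ) < z.re → z.re < η / c → E z m ≠ 0
  s1 : ∀ (z : ℂ) (m : ZMod c), -(1 / c : ℝ) < z.re → z.re + 1 / c < η / c →
    E (z + 1 / c) (m - (a : ZMod c)) = (1 - xt η (z + 1 / c) (m - (a : ZMod c))) * E z m
  s2 : ∀ (z : ℂ) (m : ZMod c), -(1 / c : ℝ) < z.re → z.re < 0 →
    E (z + η / c) (m - 1) = (1 - xx d z m) * E z m
  up : ∀ A B : ℝ, -(1 / c : ℝ) < A → B < η / c → ∃ C : ℝ, ∀ (z : ℂ) (m : ZMod c),
    A ≤ z.re → z.re ≤ B → 0 ≤ z.im → ‖E z m‖ ≤ C ∧ ‖(E z m)⁻¹‖ ≤ C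
  dn : ∀ A B : ℝ, -(1 / c : ℝ) < A → B < η / c → ∃ C : ℝ, ∀ (z : ℂ) (m : ZMod c),
    A ≤ z.re → z.re ≤ B → z.im ≤ 0 →
    ‖E z m‖ ≤ C * Real.exp (-(z.im * (2 * Real.pi * c * z.re / η - Real.pi * (1 - 1 / η)))) ∧
    ‖(E z m)⁻¹‖ ≤ C * Real.exp (z.im * (2 * Real.pi * c * z.re / η - Real.pi * (1 - 1 / η)))
  lim : ∀ (x : ℝ) (m : ZMod c), -(1 / c : ℝ) < x → x < η / c →
    Tendsto (fun t : ℝ => E (x + t * Complex.I) m) atTop (𝓝 1)

/-- The integrand `x~ E(h - s1) E(h - (τ,ν))⁻¹ psi(h, y)`, `y = (w, k)`, `h = (z, m)`. -/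
noncomputable def KK {c : ℕ} [NeZero c] (a d : ℤ) (η : ℝ) (E : ℂ → ZMod c → ℂ) (τ : ℝ)
    (ν : ZMod c) (w : ℂ) (k : ZMod c) (z : ℂ) (m : ZMod c) : ℂ :=
  xt η z m * E (z - 1 / c) (m + a) * (E (z - τ) (m - ν))⁻¹ * psi d η z m w k

/-- The integral `∑_m ∫ K(u + i t, m) dt` on the line `Re z = u`. -/
noncomputable def JJ {c : ℕ} [NeZero c] (a d : ℤ) (η : ℝ) (E : ℂ → ZMod c → ℂ) (τ : ℝ)
    (ν : ZMod c) (w : ℂ) (k : ZMod c) (u : ℝ) : ℂ :=
  ∑ m : ZMod c, ∫ t : ℝ, KK a d η E τ ν w k (u + t * Complex.I) m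

/-- The right side `P~ E(p - s1) E(y) psi(p,y) / (E(0,0) E(y+p))`. -/
noncomputable def RRz {c : ℕ} [NeZero c] (a d : ℤ) (η : ℝ) (E : ℂ → ZMod c → ℂ) (ρ : ℝ)
    (μ : ZMod c) (w : ℂ) (k : ZMod c) : ℂ :=
  xt η ρ μ * E (ρ - 1 / c) (μ + a) * E w k * psi d η ρ μ w k / (E 0 0 * E (w + ρ) (k + μ))

section
variable {c : ℕ} [NeZero c] {a d : ℤ} {η : ℝ}

theorem xt_add (z w : ℂ) (m k : ZMod c) : xt η (z + w) (m + k) = xt η z m * xt η w k := by
  unfold xt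
  rw [add_div, ee_add, chi_add]
  ring

theorem xt_ne (z : ℂ) (m : ZMod c) : xt η z m ≠ 0 := mul_ne_zero (ee_ne _) (chi_ne _)

theorem xt_sub (z w : ℂ) (m k : ZMod c) : xt η (z - w) (m - k) = xt η z m / xt η w k := by
  rw [eq_div_iff (xt_ne w k), ← xt_add, sub_add_cancel, sub_add_cancel]

theorem xx_add (z w : ℂ) (m k : ZMod c) : xx d (z + w) (m + k) = xx d z m * xx d w k := by
  unfold xx
  rw [ee_add, mul_add, chi_add]
  ring

theorem xx_ne (z : ℂ) (m : ZMod c) : xx d z m ≠ 0 := mul_ne_zero (ee_ne _) (chi_ne _)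

theorem xx_sub (z w : ℂ) (m k : ZMod c) : xx d (z - w) (m - k) = xx d z m / xx d w k := by
  rw [eq_div_iff (xx_ne w k), ← xx_add, sub_add_cancel, sub_add_cancel]

theorem psi_ne (z : ℂ) (m : ZMod c) (w : ℂ) (k : ZMod c) : psi d η z m w k ≠ 0 :=
  mul_ne_zero (ee_ne _) (chi_ne _)

theorem psi_comm (z : ℂ) (m : ZMod c) (w : ℂ) (k : ZMod c) :
    psi d η z m w k = psi d η w k z m := by
  unfold psi
  congr 2
  · ring
  · ring

theorem psi_add (z z' : ℂ) (m m' : ZMod c) (w : ℂ) (k : ZMod c) :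
    psi d η (z + z') (m + m') w k = psi d η z m w k * psi d η z' m' w k := by
  unfold psi
  rw [show (c : ℂ) * (z + z') * w / η = c * z * w / η + c * z' * w / η by ring, ee_add,
    show -((d : ZMod c) * (m + m') * k) = -((d : ZMod c) * m * k) + -((d : ZMod c) * m' * k) by
      ring, chi_add]
  ring

theorem psi_add' (z : ℂ) (m : ZMod c) (w w' : ℂ) (k k' : ZMod c) :
    psi d η z m (w + w') (k + k') = psi d η z m w k * psi d η z m w' k' := by
  rw [psi_comm, psi_add, psi_comm w k, psi_comm w' k']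

/-- `psi(h, s1) = x~(h)`. -/
theorem psi_s1 (hc : (a : ZMod c) * (d : ZMod c) = 1) (z : ℂ) (m : ZMod c) :
    psi d η z m (1 / c) (-a) = xt η z m := by
  have hcc : (c : ℂ) ≠ 0 := by exact_mod_cast NeZero.ne c
  unfold psi xt
  rw [show (c : ℂ) * z * (1 / c) / η = z / η by field_simp,
    show -((d : ZMod c) * m * -(a : ZMod c)) = (a : ZMod c) * (d : ZMod c) * m by ring, hc, one_mul]

/-- `psi(h, s2) = x(h)`. -/
theorem psi_s2 (hη : η ≠ 0) (z : ℂ) (m : ZMod c) :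
    psi d η z m (η / c) (-1) = xx d z m := by
  have hcc : (c : ℂ) ≠ 0 := by exact_mod_cast NeZero.ne c
  have h2 : (η : ℂ) ≠ 0 := by exact_mod_cast hη
  unfold psi xx
  rw [show (c : ℂ) * z * (η / c) / η = z by field_simp,
    show -((d : ZMod c) * m * -1) = (d : ZMod c) * m by ring]

/-- `x~(s2) = 1`. -/
theorem xt_s2 (hη : η ≠ 0) : xt η ((η : ℂ) / c) (-1 : ZMod c) = 1 := by
  have hcc : (c : ℂ) ≠ 0 := by exact_mod_cast NeZero.ne c
  have h2 : (η : ℂ) ≠ 0 := by exact_mod_cast hη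
  unfold xt
  rw [show (η : ℂ) / c / η = 1 / c by field_simp]
  have := chi_int (c := c) (-1)
  push_cast at this
  rw [this, ← ee_add, show (1 : ℂ) / c + -1 / c = 0 by ring, ee_zero]

/-- `x(s1) = 1`. -/
theorem xx_s1 (hc : (a : ZMod c) * (d : ZMod c) = 1) : xx d ((1 : ℂ) / c) (-a : ZMod c) = 1 := by
  unfold xx
  have := chi_int (c := c) (-1)
  push_cast at this
  rw [show (d : ZMod c) * -(a : ZMod c) = -((a : ZMod c) * d) by ring, hc, this, ← ee_add,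
    show (1 : ℂ) / c + -1 / c = 0 by ring, ee_zero]

end

end Pool.Agent.MP_d0f9e0_co.AN38
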