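import Pool.Agent.Lib.MP_d0f9e0_co.AN38.Quo

/-!
# The level `c` beta integral: the pinching limit `y → -s1`
-/

set_option autoImplicit false

open MeasureTheory Filter Topology Set

namespace Pool.Agent.MP_d0f9e0_co.AN38

variable {c : ℕ} [NeZero c] {a d : ℤ} {η : ℝ} {E : ℂ → ZMod c → ℂ}

/-- `E(h - s1) / E(h - (τ,ν))`. -/
noncomputable def BB (a : ℤ) (E : ℂ → ZMod c → ℂ) (τ : ℝ) (ν : ZMod c) (z : ℂ)
    (m : ZMod c) : ℂ := E (z - 1 / c) (m + a) * (E (z - τ) (m - ν))⁻¹

theorem psi_zero (z : ℂ) (m : ZMod c) : psi d η z m 0 0 = 1 := by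
  unfold psi
  simp [ee_zero, chi_zero]

/-- `x~(h) psi(h, -s1 + (ε,0)) = e(c z ε/η)`. -/
theorem xt_psi (hc : (a : ZMod c) * (d : ZMod c) = 1) (z : ℂ) (m : ZMod c) (ε : ℂ) :
    xt η z m * psi d η z m (-(1 / c) + ε) a = ee (c * z * ε / η) := by
  have e1 : psi d η z m (-(1 / c) + ε) (a : ZMod c) =
      psi d η z m (-(1 / c)) a * psi d η z m ε 0 := by
    rw [← psi_add', add_zero]
  have e2 : psi d η z m (-(1 / c)) a * xt η z m = 1 := by
    rw [← psi_s1 hc, ← psi_add', neg_add_cancel, add_neg_cancel, psi_zero]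
  have e3 : psi d η z m ε 0 = ee (c * z * ε / η) := by
    unfold psi
    simp [chi_zero]
  rw [e1, e3, ← mul_assoc, mul_comm (xt η z m), e2, one_mul]

theorem KK_pinch (hc : (a : ZMod c) * (d : ZMod c) = 1) (τ : ℝ) (ν : ZMod c) (ε z : ℂ)
    (m : ZMod c) : KK a d η E τ ν (-(1 / c) + ε) a z m =
      ee (c * z * ε / η) * BB a E τ ν z m := by
  unfold KK BB
  rw [← xt_psi (η := η) hc z m ε]
  ring

theorem LevE.BB_bd (h : LevE c a d η E) {τ u : ℝ} (hτ : τ < 1 / c) (hu : 0 < u)
    (hu' : u < τ + η / c) (ν : ZMod c) : ∃ C : ℝ, 0 ≤ C ∧ ∀ (t : ℝ) (m : ZMod c),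
      (0 ≤ t → ‖BB a E τ ν (u + t * Complex.I) m‖ ≤ C) ∧
      (t ≤ 0 → ‖BB a E τ ν (u + t * Complex.I) m‖ ≤
        C * Real.exp (t * (2 * Real.pi / η * (1 - c * τ)))) := by
  have hc := c_pos (c := c)
  have hη : 0 < η := by have := h.one_lt; linarith
  obtain ⟨C1, hC1⟩ := h.up (u - 1 / c) (u - 1 / c) (by linarith) (by linarith)
  obtain ⟨C2, hC2⟩ := h.up (u - τ) (u - τ) (by linarith) (by linarith)
  obtain ⟨C3, hC3⟩ := h.dn (u - 1 / c) (u - 1 / c) (by linarith) (by linarith)
  obtain ⟨C4, hC4⟩ := h.dn (u - τ) (u - τ) (by linarith) (by linarith)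
  refine ⟨|C1| * |C2| + |C3| * |C4|, by positivity, fun t m => ?_⟩
  have r1 : ((u : ℂ) + t * Complex.I - (1 : ℂ) / c).re = u - 1 / c := by
    simp only [Complex.sub_re, re_one_div]; simp
  have i1 : ((u : ℂ) + t * Complex.I - (1 : ℂ) / c).im = t := by
    simp only [Complex.sub_im, im_one_div, sub_zero]; simp
  have r2 : ((u : ℂ) + t * Complex.I - (τ : ℂ)).re = u - τ := by simp
  have i2 : ((u : ℂ) + t * Complex.I - (τ : ℂ)).im = t := by simp
  unfold BB
  rw [norm_mul]
  constructor
  · intro ht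
    have b1 := (hC1 _ (m + a) r1.ge r1.le (by rw [i1]; exact ht)).1
    have b2 := (hC2 _ (m - ν) r2.ge r2.le (by rw [i2]; exact ht)).2
    calc _ ≤ |C1| * |C2| := mul_le_mul (b1.trans (le_abs_self _)) (b2.trans (le_abs_self _))
            (norm_nonneg _) (abs_nonneg _)
      _ ≤ _ := by linarith [mul_nonneg (abs_nonneg C3) (abs_nonneg C4)]
  · intro ht
    have b1 := (hC3 _ (m + a) r1.ge r1.le (by rw [i1]; exact ht)).1
    have b2 := (hC4 _ (m - ν) r2.ge r2.le (by rw [i2]; exact ht)).2
    rw [r1, i1] at b1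
    rw [r2, i2] at b2
    set E1 := Real.exp (-(t * (2 * Real.pi * c * (u - 1 / c) / η -
      Real.pi * (1 - 1 / η)))) with hE1
    set E2 := Real.exp (t * (2 * Real.pi * c * (u - τ) / η -
      Real.pi * (1 - 1 / η))) with hE2
    have p1 : 0 < E1 := Real.exp_pos _
    have p2 : 0 < E2 := Real.exp_pos _
    have p3 : E1 * E2 = Real.exp (t * (2 * Real.pi / η * (1 - c * τ))) := by
      rw [hE1, hE2, ← Real.exp_add]
      congr 1
      field_simp
      ring
    calc _ ≤ (|C3| * E1) * (|C4| * E2) := mul_le_mul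
            (b1.trans (mul_le_mul_of_nonneg_right (le_abs_self _) p1.le))
            (b2.trans (mul_le_mul_of_nonneg_right (le_abs_self _) p2.le))
            (norm_nonneg _) (by positivity)
      _ = |C3| * |C4| * (E1 * E2) := by ring
      _ ≤ _ := by
          rw [p3]
          refine mul_le_mul_of_nonneg_right ?_ (Real.exp_pos _).le
          linarith [mul_nonneg (abs_nonneg C1) (abs_nonneg C2)]

theorem LevE.BB_lim (h : LevE c a d η E) {τ u : ℝ} (hτ : τ < 1 / c) (hu : 0 < u)
    (hu' : u < τ + η / c) (ν m : ZMod c) :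
    Tendsto (fun t : ℝ => BB a E τ ν (u + t * Complex.I) m) atTop (𝓝 1) := by
  have hc := c_pos (c := c)
  unfold BB
  have l1 := h.lim (u - 1 / c) (m + a) (by linarith) (by linarith)
  have l2 := (h.lim (u - τ) (m - ν) (by linarith) (by linarith)).inv₀ one_ne_zero
  have := l1.mul l2
  rw [inv_one, mul_one] at this
  refine this.congr fun t => ?_
  congr 2
  · push_cast; ring
  · congr 1
    push_cast; ring

theorem LevE.BB_cont (h : LevE c a d η E) {τ u : ℝ} (hτ : τ < 1 / c) (hu : 0 < u)
    (hu' : u < τ + η / c) (ν m : ZMod c) :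
    Continuous (fun t : ℝ => BB a E τ ν (u + t * Complex.I) m) := by
  have h1 := h.cont hτ ν (-(1 / c) + 0) a m (z := (u : ℂ)) (by simpa using hu) (by simpa using hu')
  refine h1.congr fun t => ?_
  rw [KK_pinch h.adc]
  simp [ee_zero]

theorem LevE.pinch_one (h : LevE c a d η E) {τ u : ℝ} (hτ : τ < 1 / c) (hu : 0 < u)
    (hu' : u < τ + η / c) (ν m : ZMod c) :
    Tendsto (fun ε : ℝ => (ε : ℂ) * ∫ t : ℝ, KK a d η E τ ν (-(1 / c) + ε) a
      (u + t * Complex.I) m) (𝓝[>] 0) (𝓝 ((η / (2 * Real.pi * c) : ℝ) : ℂ)) := by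
  have hc := c_pos (c := c)
  have hc1 : (1 : ℝ) ≤ c := by exact_mod_cast Nat.one_le_iff_ne_zero.2 (NeZero.ne c)
  have hη : 0 < η := by have := h.one_lt; linarith
  have hpi := Real.pi_pos
  have hδ : 0 < 1 - c * τ := by
    have : c * τ < 1 := by
      have := mul_lt_mul_of_pos_left hτ hc
      rwa [mul_one_div_cancel hc.ne'] at this
    linarith
  obtain ⟨C, hC0, hC⟩ := h.BB_bd hτ hu hu' ν
  set G : ℝ → ℝ → ℂ := fun ε s => ee (c * u * ε / η) *
    ((Real.exp (-(2 * Real.pi * c / η * s)) : ℝ) : ℂ) *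
      BB a E τ ν (u + ((ε⁻¹ * s : ℝ) : ℂ) * Complex.I) m with hG
  have e1 : ∀ ε : ℝ, 0 < ε → (ε : ℂ) * ∫ t : ℝ, KK a d η E τ ν (-(1 / c) + ε) a
      (u + t * Complex.I) m = ∫ s : ℝ, G ε s := by
    intro ε hε
    have h1 := Measure.integral_comp_mul_left (fun t : ℝ => KK a d η E τ ν (-(1 / c) + ε) a
      (u + t * Complex.I) m) ε⁻¹
    rw [inv_inv, abs_of_pos hε, Complex.real_smul] at h1
    rw [← h1]
    refine integral_congr_ae (Eventually.of_forall fun s => ?_)
    simp only [hG]
    rw [KK_pinch h.adc]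
    congr 1
    rw [show (c : ℂ) * ((u : ℂ) + ((ε⁻¹ * s : ℝ) : ℂ) * Complex.I) * ε / η =
      c * u * ε / η + (c * s / η) * Complex.I by
        have : (ε : ℂ) ≠ 0 := by exact_mod_cast hε.ne'
        push_cast
        field_simp, ee_add]
    congr 1
    rw [ee, Complex.ofReal_exp]
    congr 1
    push_cast
    have : Complex.I * Complex.I = -1 := Complex.I_mul_I
    linear_combination (2 * Real.pi * (c * s / η) : ℂ) * this
  have key : Tendsto (fun ε : ℝ => ∫ s : ℝ, G ε s) (𝓝[>] 0)
      (𝓝 (∫ s : ℝ, (Ioi (0 : ℝ)).indicator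
        (fun s => ((Real.exp (-(2 * Real.pi * c / η) * s) : ℝ) : ℂ)) s)) := by
    refine tendsto_integral_filter_of_dominated_convergence
      (fun s => C * Real.exp (-(2 * Real.pi / η) * |s|)) ?_ ?_
      (B94.integrable_exp_abs (by positivity) C) ?_
    · filter_upwards [self_mem_nhdsWithin] with ε hε
      refine Continuous.aestronglyMeasurable ?_
      simp only [hG]
      refine Continuous.mul (by fun_prop) ?_
      exact (h.BB_cont hτ hu hu' ν m).comp (by fun_prop)
    · have hev : ∀ᶠ ε : ℝ in 𝓝[>] 0, ε < (1 - c * τ) / (c + 1) :=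
        mem_nhdsWithin_of_mem_nhds (gt_mem_nhds (by positivity))
      filter_upwards [self_mem_nhdsWithin, hev] with ε hε hε2
      refine Eventually.of_forall fun s => ?_
      have hε0 : 0 < ε := hε
      simp only [hG]
      rw [norm_mul, norm_mul, norm_ee, Complex.norm_real, Real.norm_eq_abs, abs_of_pos
        (Real.exp_pos _), show ((c : ℂ) * u * ε / η).im = 0 by
          rw [show (c : ℂ) * u * ε / η = ((c * u * ε / η : ℝ) : ℂ) by push_cast; ring,
            Complex.ofReal_im], mul_zero, neg_zero, Real.exp_zero, one_mul]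
      rcases le_total 0 s with hs | hs
      · have b := (hC (ε⁻¹ * s) m).1 (by positivity)
        rw [abs_of_nonneg hs, mul_comm C]
        refine mul_le_mul (Real.exp_le_exp.2 ?_) b (norm_nonneg _) (Real.exp_pos _).le
        have : 2 * Real.pi / η * s ≤ 2 * Real.pi * c / η * s := by
          refine mul_le_mul_of_nonneg_right ?_ hs
          rw [div_le_div_iff_of_pos_right hη]
          nlinarith
        linarith
      · have b := (hC (ε⁻¹ * s) m).2 (mul_nonpos_of_nonneg_of_nonpos (by positivity) hs)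
        rw [abs_of_nonpos hs]
        calc _ ≤ Real.exp (-(2 * Real.pi * c / η * s)) * (C * Real.exp
              (ε⁻¹ * s * (2 * Real.pi / η * (1 - c * τ)))) :=
                mul_le_mul_of_nonneg_left b (Real.exp_pos _).le
          _ = C * Real.exp (-(2 * Real.pi * c / η * s) +
              ε⁻¹ * s * (2 * Real.pi / η * (1 - c * τ))) := by
                rw [Real.exp_add]; ring
          _ ≤ _ := by
                refine mul_le_mul_of_nonneg_left (Real.exp_le_exp.2 ?_) hC0
                have h5 : (c : ℝ) + 1 ≤ ε⁻¹ * (1 - c * τ) := by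
                  rw [inv_mul_eq_div, le_div_iff₀ hε0, mul_comm]
                  exact ((lt_div_iff₀ (by positivity)).1 hε2).le
                have h6 : 0 ≤ 2 * Real.pi / η * (-s) := mul_nonneg (by positivity) (by linarith)
                have h7 := mul_le_mul_of_nonneg_left h5 h6
                have e2 : -(2 * Real.pi * c / η * s) +
                    ε⁻¹ * s * (2 * Real.pi / η * (1 - c * τ)) =
                    -(2 * Real.pi / η * (-s) * (ε⁻¹ * (1 - c * τ))) +
                      2 * Real.pi / η * (-s) * c := by ring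
                rw [e2]
                have e3 : 2 * Real.pi / η * (-s) * (c + 1) =
                    2 * Real.pi / η * (-s) * c + 2 * Real.pi / η * (-s) := by ring
                rw [e3] at h7
                linarith
    · have hne : ∀ᵐ s : ℝ, s ≠ 0 := by
        rw [ae_iff]
        simp
      filter_upwards [hne] with s hs
      have hl0 : Tendsto (fun ε : ℝ => ee (c * u * ε / η)) (𝓝[>] 0) (𝓝 1) := by
        have hcont : Continuous (fun ε : ℝ => ee (c * u * ε / η)) :=
          differentiable_ee.continuous.comp (by fun_prop)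
        have := hcont.tendsto 0
        simp only [Complex.ofReal_zero, mul_zero, zero_div, ee_zero] at this
        exact this.mono_left nhdsWithin_le_nhds
      rcases lt_or_gt_of_ne hs with hs | hs
      · rw [indicator_of_notMem (by simpa using hs.le)]
        rw [tendsto_zero_iff_norm_tendsto_zero]
        have hb : ∀ᶠ ε : ℝ in 𝓝[>] 0, ‖G ε s‖ ≤ Real.exp (-(2 * Real.pi * c / η * s)) *
            (C * Real.exp (ε⁻¹ * s * (2 * Real.pi / η * (1 - c * τ)))) := by
          filter_upwards [self_mem_nhdsWithin] with ε hε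
          have hε0 : 0 < ε := hε
          have b := (hC (ε⁻¹ * s) m).2 (mul_nonpos_of_nonneg_of_nonpos (by positivity) hs.le)
          simp only [hG]
          rw [norm_mul, norm_mul, norm_ee, Complex.norm_real, Real.norm_eq_abs, abs_of_pos
            (Real.exp_pos _), show ((c : ℂ) * u * ε / η).im = 0 by
              rw [show (c : ℂ) * u * ε / η = ((c * u * ε / η : ℝ) : ℂ) by push_cast; ring,
                Complex.ofReal_im], mul_zero, neg_zero, Real.exp_zero, one_mul]
          exact mul_le_mul_of_nonneg_left b (Real.exp_pos _).le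
        have hlim : Tendsto (fun ε : ℝ => Real.exp (-(2 * Real.pi * c / η * s)) *
            (C * Real.exp (ε⁻¹ * s * (2 * Real.pi / η * (1 - c * τ))))) (𝓝[>] 0) (𝓝 0) := by
          have h1 : Tendsto (fun ε : ℝ => ε⁻¹ * (s * (2 * Real.pi / η * (1 - c * τ))))
              (𝓝[>] 0) atBot := by
            refine Tendsto.atTop_mul_const_of_neg ?_ tendsto_inv_nhdsGT_zero
            exact mul_neg_of_neg_of_pos hs (by positivity)
          have h2 := Real.tendsto_exp_atBot.comp h1
          have h3 := (h2.const_mul C).const_mul (Real.exp (-(2 * Real.pi * c / η * s)))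
          rw [mul_zero, mul_zero] at h3
          refine h3.congr fun ε => ?_
          simp only [Function.comp_apply]
          congr 3
          ring
        exact squeeze_zero' (Eventually.of_forall fun _ => norm_nonneg _) hb hlim
      · rw [indicator_of_mem (by simpa using hs)]
        have h1 : Tendsto (fun ε : ℝ => ε⁻¹ * s) (𝓝[>] 0) atTop :=
          Tendsto.atTop_mul_const hs tendsto_inv_nhdsGT_zero
        have h2 := (h.BB_lim hτ hu hu' ν m).comp h1
        have h3 := (hl0.mul_const ((Real.exp (-(2 * Real.pi * c / η * s)) : ℝ) : ℂ)).mul h2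
        rw [one_mul, mul_one] at h3
        have e5 : -(2 * Real.pi * c / η) * s = -(2 * Real.pi * c / η * s) := by ring
        rw [e5]
        exact h3
  have hval : (∫ s : ℝ, (Ioi (0 : ℝ)).indicator
        (fun s => ((Real.exp (-(2 * Real.pi * c / η) * s) : ℝ) : ℂ)) s) =
      ((η / (2 * Real.pi * c) : ℝ) : ℂ) := by
    rw [integral_indicator measurableSet_Ioi]
    rw [integral_complex_ofReal, integral_exp_mul_Ioi (by
      have : 0 < 2 * Real.pi * c / η := by positivity
      linarith)]
    congr 1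
    simp only [mul_zero, Real.exp_zero]
    field_simp
  rw [hval] at key
  refine key.congr' ?_
  filter_upwards [self_mem_nhdsWithin] with ε hε
  exact (e1 ε hε).symm

end Pool.Agent.MP_d0f9e0_co.AN38
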