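import Pool.Agent.Lib.MP_d0f9e0_co.AN38.Bd

/-!
# A function on a vertical strip times `ZMod c` with two periods is constant
-/

set_option autoImplicit false

open MeasureTheory Filter Topology Set

namespace Pool.Agent.MP_d0f9e0_co.AN38

variable {c : ℕ} [NeZero c]

/-- Two periods on a strip wider than `η/c`. -/
theorem two_periods_c {a d : ZMod c} (had : a * d = 1) {f : ℂ → ZMod c → ℂ} {A B η : ℝ}
    (hη : Irrational η) (hη1 : 1 < η) (hAB : A + η / c < B)
    (hf : ∀ m, DifferentiableOn ℂ (fun z => f z m) {z : ℂ | A < z.re ∧ z.re < B})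
    (h1 : ∀ (z : ℂ) (m : ZMod c), A < z.re → z.re + 1 / c < B → f (z + 1 / c) (m - a) = f z m)
    (h2 : ∀ (z : ℂ) (m : ZMod c), A < z.re → z.re + η / c < B → f (z + η / c) (m - 1) = f z m)
    {z w : ℂ} (m k : ZMod c) (hz : A < z.re) (hz' : z.re < B) (hw : A < w.re) (hw' : w.re < B) :
    f z m = f w k := by
  have hc := c_pos (c := c)
  have hcC : (c : ℂ) ≠ 0 := by exact_mod_cast NeZero.ne c
  have h1c : 1 / (c : ℝ) < η / c := by gcongr
  have h0c : 0 < 1 / (c : ℝ) := by positivity
  set U : Set ℂ := {z : ℂ | A < z.re ∧ z.re < B} with hUdef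
  have hU : IsOpen U := isOpen_strip A B
  have hre : ∀ (z : ℂ) (t : ℝ), (z + (t : ℂ)).re = z.re + t := by intro z t; simp
  have hnat : ∀ (n : ℕ) (z : ℂ) (m : ZMod c), z ∈ U → z + ((n / c : ℝ) : ℂ) ∈ U →
      f (z + ((n / c : ℝ) : ℂ)) (m - n * a) = f z m := by
    intro n
    induction n with
    | zero => intro z m _ _; simp
    | succ n ih =>
      intro z m hz hz2
      have e : z + (((n + 1 : ℕ) / c : ℝ) : ℂ) = z + ((n / c : ℝ) : ℂ) + 1 / c := by
        push_cast; field_simp; ring
      have e3 : (((n + 1 : ℕ) : ℝ) / c : ℝ) = n / c + 1 / c := by push_cast; ring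
      have hn0 : (0 : ℝ) ≤ n / c := by positivity
      have b := hz2.2
      rw [hre, e3] at b
      have hzz : z + ((n / c : ℝ) : ℂ) ∈ U := by
        refine ⟨?_, ?_⟩
        · have := hz.1
          rw [hre]; linarith
        · rw [hre]; linarith
      rw [e, show m - ((n + 1 : ℕ) : ZMod c) * a = m - n * a - a by push_cast; ring,
        h1 (z + ((n / c : ℝ) : ℂ)) _ hzz.1 (by rw [hre]; linarith), ih z m hz hzz]
  have hint : ∀ (n : ℤ) (z : ℂ) (m : ZMod c), z ∈ U → z + ((n / c : ℝ) : ℂ) ∈ U →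
      f (z + ((n / c : ℝ) : ℂ)) (m - n * a) = f z m := by
    intro n z m hz hzn
    rcases Int.eq_nat_or_neg n with ⟨j, rfl | rfl⟩
    · have := hnat j z m hz (by simpa using hzn)
      simpa using this
    · have e1 : z + (((-(j : ℤ) : ℤ) : ℝ) / c : ℝ) + ((j / c : ℝ) : ℂ) = z := by
        push_cast; ring
      have := hnat j (z + (((-(j : ℤ) : ℤ) : ℝ) / c : ℝ)) (m - ((-(j : ℤ) : ℤ) : ZMod c) * a) hzn
        (by rw [e1]; exact hz)
      rw [e1] at this
      rw [← this]
      congr 1
      push_cast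
      ring
  obtain ⟨C, hC1, hC2⟩ : ∃ C, A < C ∧ C + 1 / c < B :=
    ⟨(A + (B - 1 / c)) / 2, by linarith, by linarith⟩
  set fl : ℂ → ℤ := fun z => ⌊(z.re - C) * c⌋ with hfl
  set F : ℂ → ZMod c → ℂ := fun z m => f (z - ((fl z / c : ℝ) : ℂ)) (m + fl z * a) with hFdef
  have hres : ∀ (z : ℂ) (t : ℝ), (z - (t : ℂ)).re = z.re - t := by intro z t; simp
  have hmem : ∀ z : ℂ, z - ((fl z / c : ℝ) : ℂ) ∈ U := by
    intro z
    have e1 := Int.floor_le ((z.re - C) * c)
    have e2 := Int.lt_floor_add_one ((z.re - C) * c)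
    have e3 : ((fl z : ℤ) : ℝ) / c ≤ z.re - C := by
      rw [div_le_iff₀ hc]; exact e1
    have e4 : z.re - C < ((fl z : ℤ) : ℝ) / c + 1 / c := by
      rw [← add_div, lt_div_iff₀ hc]; exact e2
    refine ⟨?_, ?_⟩
    · rw [hres]; linarith
    · rw [hres]; linarith
  have hFn : ∀ (z : ℂ) (m : ZMod c) (n : ℤ), z - ((n / c : ℝ) : ℂ) ∈ U →
      F z m = f (z - ((n / c : ℝ) : ℂ)) (m + n * a) := by
    intro z m n hzn
    have e1 : z - ((n / c : ℝ) : ℂ) + (((n - fl z : ℤ) / c : ℝ) : ℂ) =
        z - ((fl z / c : ℝ) : ℂ) := by push_cast; ring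
    have := hint (n - fl z) (z - ((n / c : ℝ) : ℂ)) (m + n * a) hzn (by rw [e1]; exact hmem z)
    rw [e1] at this
    rw [← this, hFdef]
    simp only
    congr 1
    push_cast
    ring
  have hFd : ∀ m, Differentiable ℂ (fun z => F z m) := by
    intro m z0
    have hopen : ∀ᶠ z : ℂ in 𝓝 z0, z - ((fl z0 / c : ℝ) : ℂ) ∈ U := by
      have hcont : ContinuousAt (fun z : ℂ => z - ((fl z0 / c : ℝ) : ℂ)) z0 := by fun_prop
      exact hcont.eventually (hU.mem_nhds (hmem z0))
    have heq : (fun z => F z m) =ᶠ[𝓝 z0]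
        fun z => f (z - ((fl z0 / c : ℝ) : ℂ)) (m + fl z0 * a) := by
      filter_upwards [hopen] with z hz using hFn z m _ hz
    refine DifferentiableAt.congr_of_eventuallyEq ?_ heq
    have h3 : DifferentiableAt ℂ (fun z => f z (m + fl z0 * a)) (z0 - ((fl z0 / c : ℝ) : ℂ)) :=
      (hf _).differentiableAt (hU.mem_nhds (hmem z0))
    exact DifferentiableAt.comp (g := fun z => f z (m + fl z0 * a))
      (f := fun z : ℂ => z - ((fl z0 / c : ℝ) : ℂ)) z0 h3 (by fun_prop)
  have hFU : ∀ z ∈ U, ∀ m, F z m = f z m := by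
    intro z hz m
    have := hFn z m 0 (by simpa using hz)
    simpa using this
  have hF1 : ∀ z m, F (z + 1 / c) (m - a) = F z m := by
    intro z m
    have e1 : z + 1 / c - (((fl z + 1 : ℤ) / c : ℝ) : ℂ) = z - ((fl z / c : ℝ) : ℂ) := by
      push_cast; ring
    have := hFn (z + 1 / c) (m - a) (fl z + 1) (by rw [e1]; exact hmem z)
    rw [this, e1, hFdef]
    simp only
    congr 1
    push_cast
    ring
  have hF2 : ∀ z m, F (z + η / c) (m - 1) = F z m := by
    intro z m
    have hA1 : AnalyticOnNhd ℂ (fun z => F (z + η / c) (m - 1)) univ := by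
      refine DifferentiableOn.analyticOnNhd ?_ isOpen_univ
      exact ((hFd (m - 1)).comp (differentiable_id.add_const _)).differentiableOn
    have hA2 : AnalyticOnNhd ℂ (fun z => F z m) univ :=
      (hFd m).differentiableOn.analyticOnNhd isOpen_univ
    have hev : (fun z => F (z + η / c) (m - 1)) =ᶠ[𝓝 (((A + (B - η / c)) / 2 : ℝ) : ℂ)]
        (fun z => F z m) := by
      have hm0 : (((A + (B - η / c)) / 2 : ℝ) : ℂ) ∈ {z : ℂ | A < z.re ∧ z.re < B - η / c} := by
        refine ⟨?_, ?_⟩
        · simp only [Complex.ofReal_re]; linarith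
        · simp only [Complex.ofReal_re]; linarith
      filter_upwards [(isOpen_strip A (B - η / c)).mem_nhds hm0] with z hz
      have hη0 : 0 < η / (c : ℝ) := by positivity
      have e1 : (z + (η : ℂ) / c).re = z.re + η / c := by
        simp only [Complex.add_re, re_eta_div]
      have hzU : z ∈ U := ⟨hz.1, by have := hz.2; linarith⟩
      have hzU2 : z + η / c ∈ U := by
        refine ⟨?_, ?_⟩
        · have := hz.1
          rw [e1]; linarith
        · have := hz.2
          rw [e1]; linarith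
      rw [hFU _ hzU2, hFU _ hzU]
      exact h2 z m hz.1 (by have := hz.2; linarith)
    have := hA1.eq_of_eventuallyEq hA2 hev
    exact congrFun this z
  have it1 : ∀ (n : ℕ) z m, F (z + n / c) (m - n * a) = F z m := by
    intro n
    induction n with
    | zero => intro z m; simp
    | succ n ih =>
      intro z m
      rw [show z + ((n + 1 : ℕ) : ℂ) / c = z + n / c + 1 / c by push_cast; ring,
        show m - ((n + 1 : ℕ) : ZMod c) * a = m - n * a - a by push_cast; ring, hF1, ih]
  have it2 : ∀ (n : ℕ) z m, F (z + n * (η / c)) (m - n) = F z m := by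
    intro n
    induction n with
    | zero => intro z m; simp
    | succ n ih =>
      intro z m
      rw [show z + ((n + 1 : ℕ) : ℂ) * (η / c) = z + n * (η / c) + η / c by push_cast; ring,
        show m - ((n + 1 : ℕ) : ZMod c) = m - n - 1 by push_cast; ring, hF2, ih]
  have p1 : ∀ m z, F (z + 1) m = F z m := by
    intro m z
    have := it1 c z m
    rwa [div_self hcC, ZMod.natCast_self, zero_mul, sub_zero] at this
  have p2 : ∀ m z, F (z + η) m = F z m := by
    intro m z
    have := it2 c z m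
    rwa [mul_div_cancel₀ _ hcC, ZMod.natCast_self, sub_zero] at this
  have p3 : ∀ m z w, F z m = F w m := fun m z w =>
    B94.const_of_periods hη (hFd m) (p1 m) (p2 m) z w
  have p4 : ∀ (n : ℕ) m z, F z (m - n * a) = F z m := by
    intro n m z
    rw [← it1 n z m]
    exact p3 _ _ _
  have p5 : F z m = F z k := by
    have := p4 ((m - k) * d).val m z
    rw [ZMod.natCast_val, ZMod.cast_id', id_eq, mul_assoc, mul_comm d a, had, mul_one,
      sub_sub_cancel] at this
    exact this.symm
  rw [← hFU z ⟨hz, hz'⟩, ← hFU w ⟨hw, hw'⟩, p5]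
  exact p3 _ _ _

end Pool.Agent.MP_d0f9e0_co.AN38
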