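import Pool.Agent.Lib.MP_d0f9e0_co.AN38.Def

/-!
# The level `c` beta integral: pointwise identities of the integrand
-/

set_option autoImplicit false

open MeasureTheory Filter Topology Set

namespace Pool.Agent.MP_d0f9e0_co.AN38

variable {c : ℕ} {a d : ℤ} {η : ℝ}

theorem inv_aux {A X Y B : ℂ} (hX : X ≠ 0) : A * Y⁻¹ * B = X * (A * (X * Y)⁻¹ * B) := by
  rw [mul_inv]
  field_simp

theorem c_pos [NeZero c] : (0 : ℝ) < c := by exact_mod_cast Nat.pos_of_ne_zero (NeZero.ne c)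

theorem re_one_div : ((1 : ℂ) / c).re = 1 / c := by
  rw [show (1 : ℂ) / c = ((1 / c : ℝ) : ℂ) by push_cast; ring, Complex.ofReal_re]

theorem im_one_div : ((1 : ℂ) / c).im = 0 := by
  rw [show (1 : ℂ) / c = ((1 / c : ℝ) : ℂ) by push_cast; ring, Complex.ofReal_im]

theorem re_eta_div : ((η : ℂ) / c).re = η / c := by
  rw [show (η : ℂ) / c = ((η / c : ℝ) : ℂ) by push_cast; ring, Complex.ofReal_re]

variable [NeZero c] {E : ℂ → ZMod c → ℂ}

/-- `K(y + s1) = x~(h) K(y)`. -/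
theorem KK_ys1 (hc : (a : ZMod c) * (d : ZMod c) = 1) (τ : ℝ) (ν : ZMod c) (w : ℂ) (k : ZMod c)
    (z : ℂ) (m : ZMod c) :
    KK a d η E τ ν (w + 1 / c) (k - a) z m = xt η z m * KK a d η E τ ν w k z m := by
  unfold KK
  rw [sub_eq_add_neg k, psi_add', psi_s1 hc]
  ring

/-- `K(y + s2) = x(h) K(y)`. -/
theorem KK_ys2 (hη : η ≠ 0) (τ : ℝ) (ν : ZMod c) (w : ℂ) (k : ZMod c)
    (z : ℂ) (m : ZMod c) :
    KK a d η E τ ν (w + η / c) (k - 1) z m = xx d z m * KK a d η E τ ν w k z m := by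
  unfold KK
  rw [sub_eq_add_neg k, psi_add', psi_s2 hη]
  ring

/-- `K_{(τ,ν)+s1}(h) = (1 - x~(h)/x~(τ,ν)) K_{(τ,ν)}(h)`. -/
theorem LevE.KK_ps1 (h : LevE c a d η E) {τ : ℝ} (ν : ZMod c) (w : ℂ) (k : ZMod c)
    {z : ℂ} (m : ZMod c) (h1 : τ < z.re) (h2 : z.re < τ + η / c) :
    KK a d η E (τ + 1 / c) (ν - a) w k z m =
      (1 - xt η z m / xt η τ ν) * KK a d η E τ ν w k z m := by
  have hc := c_pos (c := c)
  have e1 : (z - ((τ + 1 / c : ℝ) : ℂ)).re = z.re - τ - 1 / c := by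
    simp only [Complex.sub_re, Complex.ofReal_re]; ring
  have key := h.s1 (z - ((τ + 1 / c : ℝ) : ℂ)) (m - (ν - a)) (by rw [e1]; linarith)
    (by rw [e1]; linarith)
  rw [show z - ((τ + 1 / c : ℝ) : ℂ) + 1 / c = z - τ by push_cast; ring,
    show m - (ν - (a : ZMod c)) - a = m - ν by ring, xt_sub] at key
  have n1 : E (z - τ) (m - ν) ≠ 0 := by
    refine h.ne _ _ ?_ ?_
    · simp only [Complex.sub_re, Complex.ofReal_re]
      have : 0 < 1 / (c : ℝ) := by positivity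
      linarith
    · simp only [Complex.sub_re, Complex.ofReal_re]; linarith
  have n2 : E (z - ((τ + 1 / c : ℝ) : ℂ)) (m - (ν - a)) ≠ 0 := by
    intro h0
    rw [h0, mul_zero] at key
    exact n1 key
  unfold KK
  rw [key]
  have n3 : (1 - xt η z m / xt η τ ν) ≠ 0 := by
    intro h0
    rw [h0, zero_mul] at key
    exact n1 key
  exact inv_aux n3

/-- `K_{(τ,ν)+s1}(h + s1) = x~(y + s1) (1 - x~(h)) K_{(τ,ν)}(h)`. -/
theorem LevE.KK_hs1 (h : LevE c a d η E) {τ : ℝ} (ν : ZMod c) (w : ℂ) (k : ZMod c)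
    {z : ℂ} (m : ZMod c) (h1 : 0 < z.re) (h2 : z.re < η / c) :
    KK a d η E (τ + 1 / c) (ν - a) w k (z + 1 / c) (m - (a : ZMod c)) =
      xt η (w + 1 / c) (k - (a : ZMod c)) * (1 - xt η z m) * KK a d η E τ ν w k z m := by
  have e1 : (z - (1 : ℂ) / c).re = z.re - 1 / c := by
    simp only [Complex.sub_re, re_one_div]
  have key := h.s1 (z - 1 / c) (m + a) (by rw [e1]; linarith) (by rw [e1]; linarith)
  rw [show z - (1 : ℂ) / c + 1 / c = z by ring, show m + (a : ZMod c) - a = m by ring] at key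
  unfold KK
  rw [show z + (1 : ℂ) / c - 1 / c = z by ring, show m - (a : ZMod c) + a = m by ring, key,
    show z + (1 : ℂ) / c - ((τ + 1 / c : ℝ) : ℂ) = z - τ by push_cast; ring,
    show m - (a : ZMod c) - (ν - a) = m - ν by ring, sub_eq_add_neg m, xt_add, psi_add,
    psi_comm (1 / c : ℂ) (-(a : ZMod c)), psi_s1 h.adc, sub_eq_add_neg k, xt_add]
  ring

/-- `K_{(τ,ν)+s2}(h) = (1 - x(h)/x((τ,ν)+s2)) K_{(τ,ν)}(h)`. -/
theorem LevE.KK_ps2 (h : LevE c a d η E) {τ : ℝ} (ν : ZMod c) (w : ℂ) (k : ZMod c)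
    {z : ℂ} (m : ZMod c) (h1 : τ + (η - 1) / c < z.re) (h2 : z.re < τ + η / c) :
    KK a d η E (τ + η / c) (ν - 1) w k z m =
      (1 - xx d z m / xx d ((τ + η / c : ℝ) : ℂ) (ν - 1)) * KK a d η E τ ν w k z m := by
  have hc := c_pos (c := c)
  have hη := h.one_lt
  have e1 : (z - ((τ + η / c : ℝ) : ℂ)).re = z.re - τ - η / c := by
    simp only [Complex.sub_re, Complex.ofReal_re]; ring
  have e0 : (η - 1) / c = η / c - 1 / c := by ring
  have key := h.s2 (z - ((τ + η / c : ℝ) : ℂ)) (m - (ν - 1)) (by rw [e1]; linarith)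
    (by rw [e1]; linarith)
  rw [show z - ((τ + η / c : ℝ) : ℂ) + η / c = z - τ by push_cast; ring,
    show m - (ν - 1) - 1 = m - ν by ring, xx_sub] at key
  have n2 : E (z - ((τ + η / c : ℝ) : ℂ)) (m - (ν - 1)) ≠ 0 := by
    refine h.ne _ _ (by rw [e1]; linarith) ?_
    rw [e1]
    have : 0 < η / (c : ℝ) := by positivity
    linarith
  have n1 : E (z - τ) (m - ν) ≠ 0 := by
    refine h.ne _ _ ?_ ?_
    · simp only [Complex.sub_re, Complex.ofReal_re]
      have : 0 < η / (c : ℝ) := by positivity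
      linarith
    · simp only [Complex.sub_re, Complex.ofReal_re]; linarith
  unfold KK
  rw [key]
  have n3 : (1 - xx d z m / xx d ((τ + η / c : ℝ) : ℂ) (ν - 1)) ≠ 0 := by
    intro h0
    rw [h0, zero_mul] at key
    exact n1 key
  exact inv_aux n3

/-- `K_{(τ,ν)+s2}(h + s2) = x(y) (1 - x(h)) K_{(τ,ν)}(h)`. -/
theorem LevE.KK_hs2 (h : LevE c a d η E) {τ : ℝ} (ν : ZMod c) (w : ℂ) (k : ZMod c)
    {z : ℂ} (m : ZMod c) (h1 : 0 < z.re) (h2 : z.re < 1 / c) :
    KK a d η E (τ + η / c) (ν - 1) w k (z + η / c) (m - 1) =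
      xx d w k * (1 - xx d z m) * KK a d η E τ ν w k z m := by
  have hη : η ≠ 0 := by have := h.one_lt; positivity
  have e1 : (z - (1 : ℂ) / c).re = z.re - 1 / c := by
    simp only [Complex.sub_re, re_one_div]
  have key := h.s2 (z - 1 / c) (m + a) (by rw [e1]; linarith) (by rw [e1]; linarith)
  have e2 : xx d (z - (1 : ℂ) / c) (m + (a : ZMod c)) = xx d z m := by
    rw [show m + (a : ZMod c) = m - -a by ring, xx_sub, xx_s1 h.adc, div_one]
  rw [e2] at key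
  unfold KK
  rw [show z + (η : ℂ) / c - 1 / c = z - 1 / c + η / c by ring,
    show m - 1 + (a : ZMod c) = m + a - 1 by ring, key,
    show z + (η : ℂ) / c - ((τ + η / c : ℝ) : ℂ) = z - τ by push_cast; ring,
    show m - 1 - (ν - 1) = m - ν by ring, sub_eq_add_neg m, xt_add, xt_s2 hη, psi_add,
    psi_comm (η / c : ℂ) (-1), psi_s2 hη]
  ring

end Pool.Agent.MP_d0f9e0_co.AN38
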