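import Pool.Agent.Lib.MP_d0f9e0_co.AN38.Rel
import Pool.Agent.Lib.MP_d0f9e0_co.AN38.Per

/-!
# The level `c` beta integral: the quotient is constant for `0 < ρ < 1/c`
-/

set_option autoImplicit false

open MeasureTheory Filter Topology Set

namespace Pool.Agent.MP_d0f9e0_co.AN38

variable {c : ℕ} [NeZero c] {a d : ℤ} {η : ℝ} {E : ℂ → ZMod c → ℂ}

/-- The beta integral with `(τ,ν) = p - s2`, `p = (ρ, μ)`. -/
noncomputable def JP (a d : ℤ) (η : ℝ) (E : ℂ → ZMod c → ℂ) (ρ : ℝ)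
    (μ : ZMod c) (w : ℂ) (k : ZMod c) (u : ℝ) : ℂ :=
  JJ a d η E (ρ - η / c) (μ + 1) w k u

theorem xt_ps2 (hη : η ≠ 0) (ρ : ℝ) (μ : ZMod c) :
    xt η ((ρ - η / c : ℝ) : ℂ) (μ + 1) = xt η ρ μ := by
  rw [show ((ρ - η / c : ℝ) : ℂ) = (ρ : ℂ) - η / c by push_cast; ring,
    show μ + 1 = μ - -1 by ring, xt_sub, xt_s2 hη, div_one]

theorem LevE.JP_rel1 (h : LevE c a d η E) {ρ : ℝ} (μ : ZMod c) {w : ℂ} (k : ZMod c)
    (h3 : -(1 / c : ℝ) < w.re) (h4 : w.re + 1 / c < η / c - ρ) {u : ℝ} (hu : 0 < u)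
    (hu' : u < ρ) :
    JP a d η E ρ μ (w + 1 / c) (k - (a : ZMod c)) u *
        (1 - xt η (w + 1 / c) (k - (a : ZMod c)) * xt η ρ μ) =
      JP a d η E ρ μ w k u * ((1 - xt η (w + 1 / c) (k - (a : ZMod c))) * xt η ρ μ) := by
  have hη : η ≠ 0 := by have := h.one_lt; positivity
  have key := h.rel1 (τ := ρ - η / c) (μ + 1) (w := w) k h3 (by linarith) hu (by linarith)
  rw [xt_ps2 hη] at key
  unfold JP
  have hP : xt η ρ μ ≠ 0 := xt_ne _ _
  set P := xt η (ρ : ℂ) μ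
  set X := xt η (w + 1 / c) (k - (a : ZMod c))
  set J0 := JJ a d η E (ρ - η / c) (μ + 1) w k u
  set J1 := JJ a d η E (ρ - η / c) (μ + 1) (w + 1 / c) (k - (a : ZMod c)) u
  have e1 : P * P⁻¹ = 1 := mul_inv_cancel₀ hP
  linear_combination (-P) * key - J1 * e1

theorem LevE.JP_rel2 (h : LevE c a d η E) {ρ : ℝ} (μ : ZMod c) {w : ℂ} (k : ZMod c)
    (h3 : -(1 / c : ℝ) < w.re) (h4 : w.re + η / c < η / c - ρ) {u : ℝ} (hu : 0 < u)
    (hu' : u < ρ) :
    JP a d η E ρ μ (w + η / c) (k - 1) u * (1 - xx d w k * xx d ρ μ) =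
      JP a d η E ρ μ w k u * ((1 - xx d w k) * xx d ρ μ) := by
  have key := h.rel2 (τ := ρ - η / c) (μ + 1) (w := w) k h3 (by linarith) hu (by linarith)
  rw [sub_add_cancel, add_sub_cancel_right] at key
  unfold JP
  have hP : xx d (ρ : ℂ) μ ≠ 0 := xx_ne _ _
  set P := xx d (ρ : ℂ) μ
  set X := xx d w k
  set J0 := JJ a d η E (ρ - η / c) (μ + 1) w k u
  set J1 := JJ a d η E (ρ - η / c) (μ + 1) (w + η / c) (k - 1) u
  have e1 : P * P⁻¹ = 1 := mul_inv_cancel₀ hP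
  linear_combination (-P) * key - J1 * e1

theorem LevE.RR_ne (h : LevE c a d η E) {ρ : ℝ} (μ : ZMod c) {w : ℂ} (k : ZMod c)
    (h1 : 0 < ρ) (h3 : -(1 / c : ℝ) < w.re) (h4 : w.re < η / c - ρ) :
    RRz a d η E ρ μ w k ≠ 0 := by
  have hc := c_pos (c := c)
  have hη := h.one_lt
  have h0 : 0 < 1 / (c : ℝ) := by positivity
  have h5 : 0 < η / (c : ℝ) := by positivity
  have r1 : ((ρ : ℂ) - (1 : ℂ) / c).re = ρ - 1 / c := by
    simp only [Complex.sub_re, re_one_div, Complex.ofReal_re]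
  unfold RRz
  refine div_ne_zero (mul_ne_zero (mul_ne_zero (mul_ne_zero (xt_ne _ _) (h.ne _ _ ?_ ?_))
    (h.ne _ _ h3 (by linarith))) (psi_ne _ _ _ _)) (mul_ne_zero (h.ne _ _ ?_ ?_) (h.ne _ _ ?_ ?_))
  · rw [r1]; linarith
  · rw [r1]; linarith
  · simpa using h0
  · simpa using h5
  · simp only [Complex.add_re, Complex.ofReal_re]; linarith
  · simp only [Complex.add_re, Complex.ofReal_re]; linarith

theorem rr_aux {A e s E0 f X P : ℂ} (hX : 1 - X * P ≠ 0) :
    (A * ((1 - X) * e) * (s * P) / (E0 * ((1 - X * P) * f))) * (1 - X * P) =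
      (A * e * s / (E0 * f)) * ((1 - X) * P) := by
  rw [show E0 * ((1 - X * P) * f) = (E0 * f) * (1 - X * P) by ring, div_mul_eq_mul_div,
    mul_div_mul_right _ _ hX]
  ring

theorem LevE.RR_rel1 (h : LevE c a d η E) {ρ : ℝ} (μ : ZMod c) {w : ℂ} (k : ZMod c)
    (h1 : 0 < ρ) (h3 : -(1 / c : ℝ) < w.re) (h4 : w.re + 1 / c < η / c - ρ) :
    RRz a d η E ρ μ (w + 1 / c) (k - (a : ZMod c)) *
        (1 - xt η (w + 1 / c) (k - (a : ZMod c)) * xt η ρ μ) =
      RRz a d η E ρ μ w k * ((1 - xt η (w + 1 / c) (k - (a : ZMod c))) * xt η ρ μ) ∧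
      (1 - xt η (w + 1 / c) (k - (a : ZMod c)) * xt η ρ μ) ≠ 0 ∧
      (1 - xt η (w + 1 / c) (k - (a : ZMod c))) ≠ 0 := by
  have hc := c_pos (c := c)
  have hη := h.one_lt
  have h0 : 0 < 1 / (c : ℝ) := by positivity
  have r1 : (w + (1 : ℂ) / c).re = w.re + 1 / c := by
    simp only [Complex.add_re, re_one_div]
  have r2 : (w + (ρ : ℂ)).re = w.re + ρ := by simp
  have k1 := h.s1 w k h3 (by linarith)
  have k2 := h.s1 (w + ρ) (k + μ) (by rw [r2]; linarith) (by rw [r2]; linarith)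
  have e2 : xt η (w + ρ + 1 / c) (k + μ - (a : ZMod c)) =
      xt η (w + 1 / c) (k - (a : ZMod c)) * xt η ρ μ := by
    rw [← xt_add]
    congr 1
    · ring
    · ring
  rw [e2] at k2
  have n1 : E (w + 1 / c) (k - (a : ZMod c)) ≠ 0 := h.ne _ _ (by rw [r1]; linarith)
    (by rw [r1]; linarith)
  have n2 : E (w + ρ + 1 / c) (k + μ - (a : ZMod c)) ≠ 0 := by
    refine h.ne _ _ ?_ ?_
    · simp only [Complex.add_re, re_one_div, Complex.ofReal_re]; linarith
    · simp only [Complex.add_re, re_one_div, Complex.ofReal_re]; linarith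
  have m1 : (1 - xt η (w + 1 / c) (k - (a : ZMod c))) ≠ 0 := by
    intro h6
    rw [h6, zero_mul] at k1
    exact n1 k1
  have m2 : (1 - xt η (w + 1 / c) (k - (a : ZMod c)) * xt η ρ μ) ≠ 0 := by
    intro h6
    rw [h6, zero_mul] at k2
    exact n2 k2
  refine ⟨?_, m2, m1⟩
  have n3 : E (w + ρ) (k + μ) ≠ 0 := h.ne _ _ (by rw [r2]; linarith) (by rw [r2]; linarith)
  have n4 : E 0 0 ≠ 0 := by
    refine h.ne _ _ ?_ ?_
    · simpa using h0
    · have : 0 < η / (c : ℝ) := by positivity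
      simpa using this
  unfold RRz
  have e3 : w + 1 / c + (ρ : ℂ) = w + ρ + 1 / c := by ring
  have e4 : k - (a : ZMod c) + μ = k + μ - a := by ring
  have e5 : psi d η ρ μ (w + 1 / c) (k - (a : ZMod c)) = psi d η ρ μ w k * xt η ρ μ := by
    rw [sub_eq_add_neg k, psi_add', psi_s1 h.adc]
  rw [e3, e4, k2, k1, e5]
  exact rr_aux m2

theorem LevE.RR_rel2 (h : LevE c a d η E) {ρ : ℝ} (μ : ZMod c) {w : ℂ} (k : ZMod c)
    (h1 : 0 < ρ) (h3 : -(1 / c : ℝ) < w.re) (h4 : w.re + η / c < η / c - ρ) :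
    RRz a d η E ρ μ (w + η / c) (k - 1) * (1 - xx d w k * xx d ρ μ) =
      RRz a d η E ρ μ w k * ((1 - xx d w k) * xx d ρ μ) ∧
      (1 - xx d w k * xx d ρ μ) ≠ 0 ∧ (1 - xx d w k) ≠ 0 := by
  have hc := c_pos (c := c)
  have hη := h.one_lt
  have h0 : 0 < 1 / (c : ℝ) := by positivity
  have h00 : 0 < η / (c : ℝ) := by positivity
  have r1 : (w + (η : ℂ) / c).re = w.re + η / c := by
    simp only [Complex.add_re, re_eta_div]
  have r2 : (w + (ρ : ℂ)).re = w.re + ρ := by simp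
  have k1 := h.s2 w k h3 (by linarith)
  have k2 := h.s2 (w + ρ) (k + μ) (by rw [r2]; linarith) (by rw [r2]; linarith)
  rw [xx_add] at k2
  have n1 : E (w + η / c) (k - 1) ≠ 0 := h.ne _ _ (by rw [r1]; linarith)
    (by rw [r1]; linarith)
  have n2 : E (w + ρ + η / c) (k + μ - 1) ≠ 0 := by
    refine h.ne _ _ ?_ ?_
    · simp only [Complex.add_re, re_eta_div, Complex.ofReal_re]; linarith
    · simp only [Complex.add_re, re_eta_div, Complex.ofReal_re]; linarith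
  have m1 : (1 - xx d w k) ≠ 0 := by
    intro h6
    rw [h6, zero_mul] at k1
    exact n1 k1
  have m2 : (1 - xx d w k * xx d ρ μ) ≠ 0 := by
    intro h6
    rw [h6, zero_mul] at k2
    exact n2 k2
  refine ⟨?_, m2, m1⟩
  have n3 : E (w + ρ) (k + μ) ≠ 0 := h.ne _ _ (by rw [r2]; linarith) (by rw [r2]; linarith)
  have n4 : E 0 0 ≠ 0 := by
    refine h.ne _ _ ?_ ?_
    · simpa using h0
    · simpa using h00
  unfold RRz
  have e3 : w + η / c + (ρ : ℂ) = w + ρ + η / c := by ring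
  have e4 : k - 1 + μ = k + μ - 1 := by ring
  have e5 : psi d η ρ μ (w + η / c) (k - 1) = psi d η ρ μ w k * xx d ρ μ := by
    rw [sub_eq_add_neg k, psi_add', psi_s2 (by positivity)]
  rw [e3, e4, k2, k1, e5]
  exact rr_aux m2

/-- The quotient. -/
noncomputable def MM (a d : ℤ) (η : ℝ) (E : ℂ → ZMod c → ℂ) (ρ : ℝ)
    (μ : ZMod c) (u : ℝ) (w : ℂ) (k : ZMod c) : ℂ :=
  JP a d η E ρ μ w k u / RRz a d η E ρ μ w k

theorem quot_aux {J J' R R' x y : ℂ} (hx : x ≠ 0) (hy : y ≠ 0) (hR : R ≠ 0) (hR' : R' ≠ 0)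
    (h1 : J' * x = J * y) (h2 : R' * x = R * y) : J' / R' = J / R := by
  rw [div_eq_div_iff hR' hR]
  have : (J' * R) * (x * y) = (J * R') * (x * y) := by
    calc (J' * R) * (x * y) = (J' * x) * (R * y) := by ring
      _ = (J * R') * (x * y) := by rw [h1, ← h2]; ring
  exact mul_right_cancel₀ (mul_ne_zero hx hy) this

/-- For `0 < ρ < 1/c` the quotient is constant. -/
theorem LevE.MM_const (h : LevE c a d η E) {ρ : ℝ} (μ : ZMod c) (h1 : 0 < ρ) (h2 : ρ < 1 / c)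
    {u : ℝ} (hu : 0 < u) (hu' : u < ρ) {w w' : ℂ} (k k' : ZMod c)
    (h3 : -(1 / c : ℝ) < w.re) (h4 : w.re < η / c - ρ) (h3' : -(1 / c : ℝ) < w'.re)
    (h4' : w'.re < η / c - ρ) : MM a d η E ρ μ u w k = MM a d η E ρ μ u w' k' := by
  have hc := c_pos (c := c)
  have hη := h.one_lt
  have h0 : 0 < 1 / (c : ℝ) := by positivity
  have h00 : 0 < η / (c : ℝ) := by positivity
  refine two_periods_c (f := MM a d η E ρ μ u) (A := -(1 / c : ℝ)) (B := η / c - ρ) h.adc h.irr hη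
    (by linarith) ?_ ?_ ?_ k k' h3 h4 h3' h4'
  · intro m
    have d1 : DifferentiableOn ℂ (fun w => JP a d η E ρ μ w m u)
        {w : ℂ | -(1 / c : ℝ) < w.re ∧ w.re < η / c - ρ} := by
      unfold JP JJ
      refine DifferentiableOn.fun_sum fun n _ => ?_
      have := h.diffInt (τ := ρ - η / c) (μ + 1) m n (z := u) (by simpa using hu)
        (by simpa using hu')
      rwa [neg_sub] at this
    have d2 : DifferentiableOn ℂ (fun w => RRz a d η E ρ μ w m)
        {w : ℂ | -(1 / c : ℝ) < w.re ∧ w.re < η / c - ρ} := by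
      intro w hw
      have hw1 := hw.1
      have hw2 := hw.2
      refine DifferentiableAt.differentiableWithinAt ?_
      unfold RRz
      have r2 : (w + (ρ : ℂ)).re = w.re + ρ := by simp
      have q1 : DifferentiableAt ℂ (fun w => E w m) w := h.diffAt m hw1 (by linarith)
      have q2 : DifferentiableAt ℂ (fun w : ℂ => E (w + ρ) (m + μ)) w := by
        refine DifferentiableAt.comp (g := fun z => E z (m + μ)) (f := fun z : ℂ => z + ρ) w
          (h.diffAt _ (by rw [r2]; linarith) (by rw [r2]; linarith)) (by fun_prop)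
      have q3 : DifferentiableAt ℂ (fun w : ℂ => psi d η ρ μ w m) w := by
        unfold psi
        refine DifferentiableAt.mul_const ?_ _
        exact DifferentiableAt.comp (g := ee) (f := fun w : ℂ => c * ρ * w / η) w
          (differentiable_ee _) (by fun_prop)
      have n3 : E (w + ρ) (m + μ) ≠ 0 := h.ne _ _ (by rw [r2]; linarith) (by rw [r2]; linarith)
      have n4 : E 0 0 ≠ 0 := by
        refine h.ne _ _ ?_ ?_
        · simpa using h0
        · simpa using h00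
      exact ((q1.const_mul _).mul q3).div (q2.const_mul _) (mul_ne_zero n4 n3)
    exact d1.div d2 (fun w hw => h.RR_ne μ m h1 hw.1 hw.2)
  · intro z m hz1 hz2
    obtain ⟨g1, g2, g3⟩ := h.RR_rel1 μ m h1 hz1 hz2
    have r1 : (z + (1 : ℂ) / c).re = z.re + 1 / c := by
      simp only [Complex.add_re, re_one_div]
    exact quot_aux g2 (mul_ne_zero g3 (xt_ne _ _)) (h.RR_ne μ m h1 hz1 (by linarith))
      (h.RR_ne μ _ h1 (by rw [r1]; linarith) (by rw [r1]; linarith))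
      (h.JP_rel1 μ m hz1 hz2 hu hu') g1
  · intro z m hz1 hz2
    obtain ⟨g1, g2, g3⟩ := h.RR_rel2 μ m h1 hz1 hz2
    have r1 : (z + (η : ℂ) / c).re = z.re + η / c := by
      simp only [Complex.add_re, re_eta_div]
    exact quot_aux g2 (mul_ne_zero g3 (xx_ne _ _)) (h.RR_ne μ m h1 hz1 (by linarith))
      (h.RR_ne μ _ h1 (by rw [r1]; linarith) (by rw [r1]; linarith))
      (h.JP_rel2 μ m hz1 hz2 hu hu') g1

end Pool.Agent.MP_d0f9e0_co.AN38
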