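import Pool.Agent.Lib.MP_d0f9e0_co.AN38.Bd

/-!
# The level `c` beta integral: the contiguous relations
-/

set_option autoImplicit false

open MeasureTheory Filter Topology Set

namespace Pool.Agent.MP_d0f9e0_co.AN38

variable {c : ℕ} [NeZero c] {a d : ℤ} {η : ℝ} {E : ℂ → ZMod c → ℂ}

/-- The integral for `(τ,ν) + s1` on the same line. -/
theorem LevE.JJ_ps1 (h : LevE c a d η E) {τ : ℝ} (ν : ZMod c) {w : ℂ} (k : ZMod c)
    (h3 : -(1 / c : ℝ) < w.re) (h4 : τ + 1 / c + w.re < 0) {u : ℝ} (hu : 0 < u)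
    (hu' : u < τ + η / c) :
    JJ a d η E (τ + 1 / c) (ν - a) w k u =
      JJ a d η E τ ν w k u - (xt η τ ν)⁻¹ * JJ a d η E τ ν (w + 1 / c) (k - a) u := by
  have hc : 0 < 1 / (c : ℝ) := by have := c_pos (c := c); positivity
  have rw1 : (w + (1 : ℂ) / c).re = w.re + 1 / c := by
    simp only [Complex.add_re, re_one_div]
  unfold JJ
  rw [Finset.mul_sum, ← Finset.sum_sub_distrib]
  refine Finset.sum_congr rfl fun m _ => ?_
  have i1 := h.integrable (τ := τ) ν k m (z := u) (by simpa using hu) (by simpa using hu') h3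
    (by linarith)
  have i2 := h.integrable (τ := τ) ν (w := w + 1 / c) (k - a) m (z := u) (by simpa using hu)
    (by simpa using hu') (by rw [rw1]; linarith) (by rw [rw1]; linarith)
  rw [← integral_const_mul, ← integral_sub i1 (i2.const_mul _)]
  refine integral_congr_ae (Eventually.of_forall fun t => ?_)
  simp only
  rw [h.KK_ps1 ν w k m (by simp; linarith) (by simpa using hu'), KK_ys1 h.adc]
  ring

/-- The integral for `(τ,ν) + s1` on the shifted line. -/
theorem LevE.JJ_hs1 (h : LevE c a d η E) {τ : ℝ} (ν : ZMod c) {w : ℂ} (k : ZMod c)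
    (h3 : -(1 / c : ℝ) < w.re) (h4 : τ + 1 / c + w.re < 0) {u : ℝ} (hu : 0 < u)
    (hu' : u < τ + η / c) :
    JJ a d η E (τ + 1 / c) (ν - a) w k (u + 1 / c) =
      xt η (w + 1 / c) (k - (a : ZMod c)) *
        (JJ a d η E τ ν w k u - JJ a d η E τ ν (w + 1 / c) (k - a) u) := by
  have hc : 0 < 1 / (c : ℝ) := by have := c_pos (c := c); positivity
  have rw1 : (w + (1 : ℂ) / c).re = w.re + 1 / c := by
    simp only [Complex.add_re, re_one_div]
  unfold JJ
  rw [← Equiv.sum_comp (Equiv.subRight (a : ZMod c)), ← Finset.sum_sub_distrib, Finset.mul_sum]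
  refine Finset.sum_congr rfl fun m _ => ?_
  have i1 := h.integrable (τ := τ) ν k m (z := u) (by simpa using hu) (by simpa using hu') h3
    (by linarith)
  have i2 := h.integrable (τ := τ) ν (w := w + 1 / c) (k - a) m (z := u) (by simpa using hu)
    (by simpa using hu') (by rw [rw1]; linarith) (by rw [rw1]; linarith)
  rw [← integral_sub i1 i2, ← integral_const_mul]
  refine integral_congr_ae (Eventually.of_forall fun t => ?_)
  simp only [Equiv.subRight_apply]
  rw [show ((u + 1 / c : ℝ) : ℂ) + t * Complex.I = (u + t * Complex.I) + 1 / c by push_cast; ring,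
    h.KK_hs1 ν w k m (by simpa using hu) (by simp; linarith), KK_ys1 h.adc]
  ring

/-- The first relation. -/
theorem LevE.rel1 (h : LevE c a d η E) {τ : ℝ} (ν : ZMod c) {w : ℂ} (k : ZMod c)
    (h3 : -(1 / c : ℝ) < w.re) (h4 : τ + 1 / c + w.re < 0) {u : ℝ} (hu : 0 < u)
    (hu' : u < τ + η / c) :
    JJ a d η E τ ν w k u - (xt η τ ν)⁻¹ * JJ a d η E τ ν (w + 1 / c) (k - a) u =
      xt η (w + 1 / c) (k - (a : ZMod c)) *
        (JJ a d η E τ ν w k u - JJ a d η E τ ν (w + 1 / c) (k - a) u) := by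
  have hc : 0 < 1 / (c : ℝ) := by have := c_pos (c := c); positivity
  rw [← h.JJ_ps1 ν k h3 h4 hu hu', ← h.JJ_hs1 ν k h3 h4 hu hu']
  exact h.JJ_shift (ν - a) k h3 h4 hu (by linarith) (by linarith) (by linarith)

/-- The integral for `(τ,ν) + s2` on the same line. -/
theorem LevE.JJ_ps2 (h : LevE c a d η E) {τ : ℝ} (ν : ZMod c) {w : ℂ} (k : ZMod c)
    (h3 : -(1 / c : ℝ) < w.re) (h4 : τ + η / c + w.re < 0) {u : ℝ} (hu : 0 < u)
    (hu' : u < τ + η / c) :
    JJ a d η E (τ + η / c) (ν - 1) w k u =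
      JJ a d η E τ ν w k u - (xx d ((τ + η / c : ℝ) : ℂ) (ν - 1))⁻¹ *
        JJ a d η E τ ν (w + η / c) (k - 1) u := by
  have hc : 0 < 1 / (c : ℝ) := by have := c_pos (c := c); positivity
  have hη := h.one_lt
  have hηc : 0 < η / (c : ℝ) := by have := c_pos (c := c); positivity
  have e0 : (η - 1) / (c : ℝ) = η / c - 1 / c := by ring
  have rw1 : (w + (η : ℂ) / c).re = w.re + η / c := by
    simp only [Complex.add_re, re_eta_div]
  unfold JJ
  rw [Finset.mul_sum, ← Finset.sum_sub_distrib]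
  refine Finset.sum_congr rfl fun m _ => ?_
  have i1 := h.integrable (τ := τ) ν k m (z := u) (by simpa using hu) (by simpa using hu') h3
    (by linarith)
  have i2 := h.integrable (τ := τ) ν (w := w + η / c) (k - 1) m (z := u) (by simpa using hu)
    (by simpa using hu') (by rw [rw1]; linarith) (by rw [rw1]; linarith)
  rw [← integral_const_mul, ← integral_sub i1 (i2.const_mul _)]
  refine integral_congr_ae (Eventually.of_forall fun t => ?_)
  simp only
  rw [h.KK_ps2 ν w k m (by simp; linarith) (by simpa using hu'),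
    KK_ys2 (by positivity)]
  ring

/-- The integral for `(τ,ν) + s2` on the shifted line. -/
theorem LevE.JJ_hs2 (h : LevE c a d η E) {τ : ℝ} (ν : ZMod c) {w : ℂ} (k : ZMod c)
    (h3 : -(1 / c : ℝ) < w.re) (h4 : τ + η / c + w.re < 0) {u : ℝ} (hu : 0 < u)
    (hu' : u < τ + η / c) :
    JJ a d η E (τ + η / c) (ν - 1) w k (u + η / c) =
      xx d w k * (JJ a d η E τ ν w k u - JJ a d η E τ ν (w + η / c) (k - 1) u) := by
  have hc : 0 < 1 / (c : ℝ) := by have := c_pos (c := c); positivity
  have hη := h.one_lt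
  have hηc : 0 < η / (c : ℝ) := by have := c_pos (c := c); positivity
  have rw1 : (w + (η : ℂ) / c).re = w.re + η / c := by
    simp only [Complex.add_re, re_eta_div]
  unfold JJ
  rw [← Equiv.sum_comp (Equiv.subRight (1 : ZMod c)), ← Finset.sum_sub_distrib, Finset.mul_sum]
  refine Finset.sum_congr rfl fun m _ => ?_
  have i1 := h.integrable (τ := τ) ν k m (z := u) (by simpa using hu) (by simpa using hu') h3
    (by linarith)
  have i2 := h.integrable (τ := τ) ν (w := w + η / c) (k - 1) m (z := u) (by simpa using hu)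
    (by simpa using hu') (by rw [rw1]; linarith) (by rw [rw1]; linarith)
  rw [← integral_sub i1 i2, ← integral_const_mul]
  refine integral_congr_ae (Eventually.of_forall fun t => ?_)
  simp only [Equiv.subRight_apply]
  rw [show ((u + η / c : ℝ) : ℂ) + t * Complex.I = (u + t * Complex.I) + η / c by push_cast; ring,
    h.KK_hs2 ν w k m (by simpa using hu)
      (by rw [show ((u : ℂ) + t * Complex.I).re = u by simp]; linarith), KK_ys2 (by positivity)]
  ring

/-- The second relation. -/
theorem LevE.rel2 (h : LevE c a d η E) {τ : ℝ} (ν : ZMod c) {w : ℂ} (k : ZMod c)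
    (h3 : -(1 / c : ℝ) < w.re) (h4 : τ + η / c + w.re < 0) {u : ℝ} (hu : 0 < u)
    (hu' : u < τ + η / c) :
    JJ a d η E τ ν w k u - (xx d ((τ + η / c : ℝ) : ℂ) (ν - 1))⁻¹ *
        JJ a d η E τ ν (w + η / c) (k - 1) u =
      xx d w k * (JJ a d η E τ ν w k u - JJ a d η E τ ν (w + η / c) (k - 1) u) := by
  have hη := h.one_lt
  have hηc : 0 < η / (c : ℝ) := by have := c_pos (c := c); positivity
  rw [← h.JJ_ps2 ν k h3 h4 hu hu', ← h.JJ_hs2 ν k h3 h4 hu hu']
  exact h.JJ_shift (ν - 1) k h3 h4 hu (by linarith) (by linarith) (by linarith)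

end Pool.Agent.MP_d0f9e0_co.AN38
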